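import Pool.Agent.Lib.MP_70cc9d.Basic

/-!
# Translations, dilations and the logarithm in the Haefliger group
-/

open Set Filter Topology

noncomputable section

namespace MP70cc9d

lemma gd_add (a x : ℝ) : Gd (fun y => y + a) x := by
  refine ⟨analyticAt_id.add analyticAt_const, ?_⟩
  rw [deriv_add_const, deriv_id'']
  norm_num

lemma gd_mul {c : ℝ} (hc : 0 < c) (x : ℝ) : Gd (fun y => c * y) x := by
  refine ⟨analyticAt_const.mul analyticAt_id, ?_⟩
  rw [deriv_const_mul_id']
  exact hc

lemma gd_log {x : ℝ} (hx : 0 < x) : Gd Real.log x := by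
  refine ⟨analyticAt_log hx, ?_⟩
  rw [Real.deriv_log]
  positivity

lemma gd_id (x : ℝ) : Gd id x := by
  refine ⟨analyticAt_id, ?_⟩
  rw [deriv_id]
  norm_num

/-- class of the translation by `a` -/
def T (a : ℝ) : HGroup := cl (fun y => y + a) 0

/-- class of the dilation by `c` -/
def D (c : ℝ) : HGroup := cl (fun y => c * y) 0

/-- class of the logarithm -/
def Lg : HGroup := cl Real.log 1

lemma cl_add (a x : ℝ) : cl (fun y => y + a) x = T a := by
  rcases le_total x 0 with h | h
  · exact cl_const h fun z _ => gd_add a z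
  · exact (cl_const h fun z _ => gd_add a z).symm

lemma cl_mul {c : ℝ} (hc : 0 < c) (x : ℝ) : cl (fun y => c * y) x = D c := by
  rcases le_total x 0 with h | h
  · exact cl_const h fun z _ => gd_mul hc z
  · exact (cl_const h fun z _ => gd_mul hc z).symm

lemma cl_log {x : ℝ} (hx : 0 < x) : cl Real.log x = Lg := by
  rcases le_total x 1 with h | h
  · exact cl_const h fun z hz => gd_log (hx.trans_le hz.1)
  · exact (cl_const h fun z hz => gd_log (zero_lt_one.trans_le hz.1)).symm

lemma T_add (a b : ℝ) : T (a + b) = T a * T b := by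
  have h := cl_comp (gd_add b 0) (gd_add a (0 + b))
  rw [cl_add, cl_add] at h
  rw [← h, ← cl_add (a + b) 0]
  congr 1
  funext y
  simp only [Function.comp]
  ring

lemma cl_id (x : ℝ) : cl id x = 1 := by
  have h := cl_comp (gd_id x) (gd_id (id x))
  simp only [Function.comp_id] at h
  exact left_eq_mul.1 h

lemma T_zero : T 0 = 1 := by
  have h := T_add 0 0
  rw [add_zero] at h
  exact left_eq_mul.1 h

lemma D_mul {a b : ℝ} (ha : 0 < a) (hb : 0 < b) : D (a * b) = D a * D b := by
  have h := cl_comp (gd_mul hb 0) (gd_mul ha (b * 0))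
  rw [cl_mul ha, cl_mul hb] at h
  rw [← h, ← cl_mul (mul_pos ha hb) 0]
  congr 1
  funext y
  simp only [Function.comp]
  ring

lemma D_one : D 1 = 1 := by
  have h := D_mul one_pos one_pos
  rw [mul_one] at h
  exact left_eq_mul.1 h

lemma D_T {c : ℝ} (hc : 0 < c) (a : ℝ) : D c * T a = T (c * a) * D c := by
  have h1 := cl_comp (gd_add a 0) (gd_mul hc (0 + a))
  have h2 := cl_comp (gd_mul hc 0) (gd_add (c * a) (c * 0))
  rw [cl_add, cl_mul hc] at h1 h2
  rw [← h1, ← h2]
  congr 1
  funext y
  simp only [Function.comp]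
  ring

lemma Lg_D {c : ℝ} (hc : 0 < c) : Lg * D c = T (Real.log c) * Lg := by
  have h1 := cl_comp (gd_mul hc 1) (gd_log (x := c * 1) (by simpa using hc))
  have h2 := cl_comp (gd_log (x := 1) one_pos) (gd_add (Real.log c) (Real.log 1))
  rw [cl_mul hc, cl_log (by simpa using hc)] at h1
  rw [cl_add, cl_log one_pos] at h2
  rw [← h1, ← h2]
  apply cl_congr ((gd_log (by simpa using hc)).comp (gd_mul hc 1))
  filter_upwards [lt_mem_nhds (zero_lt_one' ℝ)] with y hy
  simp only [Function.comp]
  rw [Real.log_mul hc.ne' hy.ne']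
  ring

end MP70cc9d
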