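import Mathlib

/-!
# The Haefliger group by generators and relations
-/

open Set Filter Topology

noncomputable section

namespace MP70cc9d

/-- A real-analytic orientation preserving local diffeomorphism of the line, defined on a bounded
open interval: a function which is real-analytic with positive derivative on `(lo, hi)`. -/
structure LD where
  /-- left end of the interval of definition -/
  lo : ℝ
  /-- right end of the interval of definition -/
  hi : ℝ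
  lt : lo < hi
  /-- the diffeomorphism (only its values on `(lo, hi)` matter) -/
  f : ℝ → ℝ
  an : ∀ x ∈ Ioo lo hi, AnalyticAt ℝ f x
  pos : ∀ x ∈ Ioo lo hi, 0 < deriv f x

/-- The relations of the Haefliger group: a local diffeomorphism and its restriction to a smaller
interval have the same class, and the class of a composition is the product of the classes. -/
def rels : Set (FreeGroup LD) :=
  {r | ∃ u v : LD, Ioo v.lo v.hi ⊆ Ioo u.lo u.hi ∧ EqOn u.f v.f (Ioo v.lo v.hi) ∧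
      r = FreeGroup.of u * (FreeGroup.of v)⁻¹} ∪
  {r | ∃ u v w : LD, w.lo = u.lo ∧ w.hi = u.hi ∧
      MapsTo u.f (Ioo u.lo u.hi) (Ioo v.lo v.hi) ∧ EqOn w.f (v.f ∘ u.f) (Ioo u.lo u.hi) ∧
      r = FreeGroup.of v * FreeGroup.of u * (FreeGroup.of w)⁻¹}

/-- The Haefliger group: the group generated by the real-analytic orientation preserving local
diffeomorphisms of the line modulo restriction and composition. -/
abbrev HGroup := PresentedGroup rels

/-- The class of a local diffeomorphism in the Haefliger group. -/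
def cls (u : LD) : HGroup := PresentedGroup.of u

lemma cls_restrict (u v : LD) (h : Ioo v.lo v.hi ⊆ Ioo u.lo u.hi)
    (he : EqOn u.f v.f (Ioo v.lo v.hi)) : cls u = cls v := by
  have h1 : (QuotientGroup.mk (FreeGroup.of u * (FreeGroup.of v)⁻¹) : HGroup) = 1 :=
    (QuotientGroup.eq_one_iff _).2
      (Subgroup.subset_normalClosure (Or.inl ⟨u, v, h, he, rfl⟩))
  rw [QuotientGroup.mk_mul, QuotientGroup.mk_inv] at h1
  exact mul_inv_eq_one.1 h1

lemma cls_comp (u v w : LD) (h1 : w.lo = u.lo) (h2 : w.hi = u.hi)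
    (hm : MapsTo u.f (Ioo u.lo u.hi) (Ioo v.lo v.hi))
    (he : EqOn w.f (v.f ∘ u.f) (Ioo u.lo u.hi)) : cls w = cls v * cls u := by
  have h1 : (QuotientGroup.mk (FreeGroup.of v * FreeGroup.of u * (FreeGroup.of w)⁻¹) : HGroup)
      = 1 :=
    (QuotientGroup.eq_one_iff _).2
      (Subgroup.subset_normalClosure (Or.inr ⟨u, v, w, h1, h2, hm, he, rfl⟩))
  rw [QuotientGroup.mk_mul, QuotientGroup.mk_mul, QuotientGroup.mk_inv] at h1
  exact (mul_inv_eq_one.1 h1).symm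

/-- `f` is a local analytic diffeomorphism at `x`. -/
def Gd (f : ℝ → ℝ) (x : ℝ) : Prop := AnalyticAt ℝ f x ∧ 0 < deriv f x

lemma Gd.congr {f g : ℝ → ℝ} {x : ℝ} (h : Gd f x) (e : f =ᶠ[𝓝 x] g) : Gd g x :=
  ⟨h.1.congr e, by rw [← e.deriv_eq]; exact h.2⟩

lemma Gd.comp {f g : ℝ → ℝ} {x : ℝ} (hg : Gd g (f x)) (hf : Gd f x) : Gd (g ∘ f) x := by
  refine ⟨hg.1.comp hf.1, ?_⟩
  rw [deriv_comp x hg.1.differentiableAt hf.1.differentiableAt]
  exact mul_pos hg.2 hf.2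

lemma Gd.eventually {f : ℝ → ℝ} {x : ℝ} (h : Gd f x) : ∀ᶠ y in 𝓝 x, Gd f y := by
  have h1 : ∀ᶠ y in 𝓝 x, AnalyticAt ℝ f y := h.1.eventually_analyticAt
  have h2 : ∀ᶠ y in 𝓝 x, 0 < deriv f y :=
    h.1.deriv.continuousAt.eventually (lt_mem_nhds h.2)
  exact h1.and h2

lemma isOpen_Gd (f : ℝ → ℝ) : IsOpen {x | Gd f x} :=
  isOpen_iff_mem_nhds.2 fun _ hx => Gd.eventually hx

/-- The local diffeomorphism given by a function which is good on an interval. -/
def mk' (f : ℝ → ℝ) (a b : ℝ) (h : a < b) (hf : ∀ x ∈ Ioo a b, Gd f x) : LD :=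
  ⟨a, b, h, f, fun x hx => (hf x hx).1, fun x hx => (hf x hx).2⟩

lemma LD.gd (u : LD) {x : ℝ} (hx : x ∈ Ioo u.lo u.hi) : Gd u.f x := ⟨u.an x hx, u.pos x hx⟩

/-- An eventual property holds on an interval around the point. -/
lemma exists_Ioo {x : ℝ} {p : ℝ → Prop} (h : ∀ᶠ y in 𝓝 x, p y) :
    ∃ e : ℝ, 0 < e ∧ ∀ y ∈ Ioo (x - e) (x + e), p y := by
  rw [Metric.eventually_nhds_iff] at h
  obtain ⟨e, he, h⟩ := h
  refine ⟨e, he, fun y hy => h ?_⟩
  rw [Real.dist_eq, abs_lt]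
  constructor <;> linarith [hy.1, hy.2]

lemma cls_eq_cls (u v : LD) {x : ℝ} (hu : x ∈ Ioo u.lo u.hi) (hv : x ∈ Ioo v.lo v.hi)
    (e : u.f =ᶠ[𝓝 x] v.f) : cls u = cls v := by
  have h : ∀ᶠ y in 𝓝 x, y ∈ Ioo u.lo u.hi ∧ y ∈ Ioo v.lo v.hi ∧ u.f y = v.f y := by
    filter_upwards [isOpen_Ioo.mem_nhds hu, isOpen_Ioo.mem_nhds hv, e] with y h1 h2 h3
    exact ⟨h1, h2, h3⟩
  obtain ⟨r, hr, h⟩ := exists_Ioo h
  let w : LD := mk' u.f (x - r) (x + r) (by linarith) fun y hy => u.gd (h y hy).1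
  have h1 : cls u = cls w := cls_restrict u w (fun y hy => (h y hy).1) fun y _ => rfl
  have h2 : cls v = cls w := cls_restrict v w (fun y hy => (h y hy).2.1)
    fun y hy => (h y hy).2.2.symm
  rw [h1, h2]

lemma exists_LD_of_gd {f : ℝ → ℝ} {x : ℝ} (h : Gd f x) :
    ∃ u : LD, x ∈ Ioo u.lo u.hi ∧ u.f = f := by
  obtain ⟨e, he, h⟩ := exists_Ioo h.eventually
  exact ⟨mk' f (x - e) (x + e) (by linarith) h, ⟨by simp [mk', he], by simp [mk', he]⟩, rfl⟩

open Classical in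
/-- The class of the germ of `f` at `x` in the Haefliger group. -/
def cl (f : ℝ → ℝ) (x : ℝ) : HGroup :=
  if h : Gd f x then cls (exists_LD_of_gd h).choose else 1

lemma cl_eq {f : ℝ → ℝ} {x : ℝ} (u : LD) (hx : x ∈ Ioo u.lo u.hi) (e : u.f =ᶠ[𝓝 x] f) :
    cl f x = cls u := by
  have h : Gd f x := (u.gd hx).congr e
  rw [cl, dif_pos h]
  obtain ⟨h1, h2⟩ := (exists_LD_of_gd h).choose_spec
  refine cls_eq_cls _ _ h1 hx ?_
  rw [h2]
  exact e.symm

lemma cl_congr {f g : ℝ → ℝ} {x : ℝ} (hf : Gd f x) (e : f =ᶠ[𝓝 x] g) : cl f x = cl g x := by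
  obtain ⟨u, hu, rfl⟩ := exists_LD_of_gd hf
  rw [cl_eq u hu EventuallyEq.rfl, cl_eq u hu e]

lemma cl_comp {f g : ℝ → ℝ} {x : ℝ} (hf : Gd f x) (hg : Gd g (f x)) :
    cl (g ∘ f) x = cl g (f x) * cl f x := by
  obtain ⟨v, hv, rfl⟩ := exists_LD_of_gd hg
  have h : ∀ᶠ y in 𝓝 x, Gd f y ∧ f y ∈ Ioo v.lo v.hi :=
    hf.eventually.and (hf.1.continuousAt.eventually (isOpen_Ioo.mem_nhds hv))
  obtain ⟨e, he, h⟩ := exists_Ioo h
  let u : LD := mk' f (x - e) (x + e) (by linarith) fun y hy => (h y hy).1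
  let w : LD := mk' (v.f ∘ f) (x - e) (x + e) (by linarith)
    fun y hy => (v.gd (h y hy).2).comp (h y hy).1
  have hx : x ∈ Ioo (x - e) (x + e) := ⟨by linarith, by linarith⟩
  have e1 : cl f x = cls u := cl_eq u (x := x) hx EventuallyEq.rfl
  have e2 : cl (v.f ∘ f) x = cls w := cl_eq w (x := x) hx EventuallyEq.rfl
  rw [cl_eq v hv EventuallyEq.rfl, e1, e2]
  exact cls_comp u v w rfl rfl (fun y hy => (h y hy).2) fun y _ => rfl

/-- A function which is good on a compact interval is the restriction of a local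
diffeomorphism. -/
lemma exists_LD_Icc {f : ℝ → ℝ} {x y : ℝ} (hxy : x ≤ y) (h : ∀ z ∈ Icc x y, Gd f z) :
    ∃ u : LD, u.f = f ∧ Icc x y ⊆ Ioo u.lo u.hi := by
  obtain ⟨e1, he1, h1⟩ := exists_Ioo (h x ⟨le_rfl, hxy⟩).eventually
  obtain ⟨e2, he2, h2⟩ := exists_Ioo (h y ⟨hxy, le_rfl⟩).eventually
  refine ⟨mk' f (x - e1) (y + e2) (by linarith) ?_, rfl, ?_⟩
  · intro z hz
    rcases lt_or_ge z x with hzx | hzx
    · exact h1 z ⟨hz.1, by linarith⟩
    · rcases lt_or_ge y z with hzy | hzy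
      · exact h2 z ⟨by linarith, hz.2⟩
      · exact h z ⟨hzx, hzy⟩
  · intro z hz
    exact ⟨by simp only [mk']; linarith [hz.1], by simp only [mk']; linarith [hz.2]⟩

/-- The class of the germ is constant under analytic continuation. -/
lemma cl_const {f : ℝ → ℝ} {x y : ℝ} (hxy : x ≤ y) (h : ∀ z ∈ Icc x y, Gd f z) :
    cl f x = cl f y := by
  obtain ⟨u, rfl, hu⟩ := exists_LD_Icc hxy h
  rw [cl_eq u (hu ⟨le_rfl, hxy⟩) EventuallyEq.rfl, cl_eq u (hu ⟨hxy, le_rfl⟩) EventuallyEq.rfl]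

/-- Induction principle: every element of the Haefliger group is a product of classes of germs
and their inverses; homomorphisms that agree on germs agree. -/
lemma hom_ext {E : Type*} [Group E] (φ ψ : HGroup →* E)
    (h : ∀ (f : ℝ → ℝ) (x : ℝ), Gd f x → φ (cl f x) = ψ (cl f x)) : φ = ψ := by
  apply PresentedGroup.ext
  intro u
  have hx : (u.lo + u.hi) / 2 ∈ Ioo u.lo u.hi :=
    ⟨by linarith [u.lt], by linarith [u.lt]⟩
  have := h u.f _ (u.gd hx)
  rwa [cl_eq u hx EventuallyEq.rfl] at this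

/-- The universal property of the Haefliger group, for functions of germs. -/
theorem exists_hom {E : Type*} [Group E] (s : (ℝ → ℝ) → ℝ → E)
    (h1 : ∀ (f g : ℝ → ℝ) (x : ℝ), Gd f x → f =ᶠ[𝓝 x] g → s f x = s g x)
    (h2 : ∀ (f g : ℝ → ℝ) (x : ℝ), Gd f x → Gd g (f x) → s (g ∘ f) x = s g (f x) * s f x)
    (h3 : ∀ (f : ℝ → ℝ) (x y : ℝ), x ≤ y → (∀ z ∈ Icc x y, Gd f z) → s f x = s f y) :
    ∃ φ : HGroup →* E, ∀ (f : ℝ → ℝ) (x : ℝ), Gd f x → φ (cl f x) = s f x := by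
  have h3' : ∀ (u : LD) (x y : ℝ), x ∈ Ioo u.lo u.hi → y ∈ Ioo u.lo u.hi →
      s u.f x = s u.f y := by
    intro u x y hx hy
    rcases le_total x y with hxy | hxy
    · exact h3 _ _ _ hxy fun z hz => u.gd ⟨hx.1.trans_le hz.1, hz.2.trans_lt hy.2⟩
    · exact (h3 _ _ _ hxy fun z hz => u.gd ⟨hy.1.trans_le hz.1, hz.2.trans_lt hx.2⟩).symm
  have hmid : ∀ u : LD, (u.lo + u.hi) / 2 ∈ Ioo u.lo u.hi := fun u =>
    ⟨by linarith [u.lt], by linarith [u.lt]⟩
  let F : LD → E := fun u => s u.f ((u.lo + u.hi) / 2)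
  have hF : ∀ r ∈ rels, FreeGroup.lift F r = 1 := by
    rintro r (⟨u, v, h, he, rfl⟩ | ⟨u, v, w, hw1, hw2, hm, he, rfl⟩)
    · simp only [map_mul, map_inv, FreeGroup.lift_apply_of, F]
      rw [mul_inv_eq_one, h3' u _ _ (hmid u) (h (hmid v))]
      apply h1 _ _ _ (u.gd (h (hmid v)))
      filter_upwards [isOpen_Ioo.mem_nhds (hmid v)] with y hy using he hy
    · simp only [map_mul, map_inv, FreeGroup.lift_apply_of, F]
      rw [mul_inv_eq_one]
      have hwu : Ioo w.lo w.hi = Ioo u.lo u.hi := by rw [hw1, hw2]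
      have hmu : (w.lo + w.hi) / 2 ∈ Ioo u.lo u.hi := hwu ▸ hmid w
      have e1 : s w.f ((w.lo + w.hi) / 2) = s (v.f ∘ u.f) ((w.lo + w.hi) / 2) := by
        apply h1 _ _ _ (w.gd (hmid w))
        filter_upwards [isOpen_Ioo.mem_nhds hmu] with y hy using he hy
      rw [e1, h2 _ _ _ (u.gd hmu) (v.gd (hm hmu)), h3' u _ _ (hmid u) hmu,
        h3' v _ _ (hmid v) (hm hmu)]
  refine ⟨PresentedGroup.toGroup hF, fun f x hfx => ?_⟩
  obtain ⟨u, hu, rfl⟩ := exists_LD_of_gd hfx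
  rw [cl_eq u hu EventuallyEq.rfl, cls, PresentedGroup.toGroup.of]
  exact h3' u _ _ (hmid u) hu

end MP70cc9d
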