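import Mathlib

/-!
# Central extensions in which commuting elements have commuting lifts
-/

namespace MP70cc9d

/-- A central extension of `G` in which commuting elements of `G` have commuting lifts. -/
structure Ext (G E : Type*) [Group G] [Group E] where
  /-- the projection -/
  p : E →* G
  surj : Function.Surjective p
  central : ∀ z, p z = 1 → ∀ e, z * e = e * z
  comm : ∀ a b, p a * p b = p b * p a → a * b = b * a

namespace Ext

variable {G E : Type*} [Group G] [Group E] (X : Ext G E)

/-- The action of `G` on `E` by conjugation with lifts. -/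
noncomputable def act (g : G) (e : E) : E :=
  Function.surjInv X.surj g * e * (Function.surjInv X.surj g)⁻¹

lemma p_inv_surj (g : G) : X.p (Function.surjInv X.surj g) = g := Function.surjInv_eq X.surj g

lemma act_p' {g : G} {e' : E} (h : X.p e' = g) (e : E) : X.act g e = e' * e * e'⁻¹ := by
  set s := Function.surjInv X.surj g with hs
  have hz : X.p (e'⁻¹ * s) = 1 := by
    rw [map_mul, map_inv, h, hs, p_inv_surj, inv_mul_cancel]
  have h1 := X.central _ hz e
  have h2 : s = e' * (e'⁻¹ * s) := by group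
  calc X.act g e = s * e * s⁻¹ := rfl
    _ = e' * ((e'⁻¹ * s) * e) * s⁻¹ := by group
    _ = e' * e * e'⁻¹ := by rw [h1]; group

lemma act_p (e' e : E) : X.act (X.p e') e = e' * e * e'⁻¹ := X.act_p' rfl e

lemma act_mul (g h : G) (e : E) : X.act (g * h) e = X.act g (X.act h e) := by
  obtain ⟨a, rfl⟩ := X.surj g
  obtain ⟨b, rfl⟩ := X.surj h
  rw [← map_mul, act_p, act_p, act_p]
  group

lemma act_one (e : E) : X.act 1 e = e := by
  rw [← map_one X.p, act_p]
  group

lemma act_inv_act (g : G) (e : E) : X.act g⁻¹ (X.act g e) = e := by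
  rw [← act_mul, inv_mul_cancel, act_one]

lemma map_act_mul (g : G) (e f : E) : X.act g (e * f) = X.act g e * X.act g f := by
  simp only [act]
  group

lemma map_act_inv (g : G) (e : E) : X.act g e⁻¹ = (X.act g e)⁻¹ := by
  simp only [act]
  group

lemma p_act (g : G) (e : E) : X.p (X.act g e) = g * X.p e * g⁻¹ := by
  simp only [act, map_mul, map_inv, p_inv_surj]

lemma act_ker (g : G) {z : E} (hz : X.p z = 1) : X.act g z = z := by
  obtain ⟨a, rfl⟩ := X.surj g
  rw [act_p, ← X.central z hz a]
  group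

lemma act_comm {g : G} {e : E} (h : g * X.p e = X.p e * g) : X.act g e = e := by
  obtain ⟨a, rfl⟩ := X.surj g
  rw [act_p, X.comm a e h]
  group

/-- An element is canonical when it is conjugate to its square. -/
def Canon (e : E) : Prop := ∃ u, X.act u e = e * e

variable {X}

/-- A canonical lift is unique. -/
lemma Canon.unique {e f : E} (he : X.Canon e) (hf : X.Canon f) (h : X.p e = X.p f) : e = f := by
  obtain ⟨u, hu⟩ := he
  obtain ⟨v, hv⟩ := hf
  obtain ⟨z, hz⟩ : ∃ z, z = e⁻¹ * f := ⟨_, rfl⟩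
  have hz1 : X.p z = 1 := by rw [hz, map_mul, map_inv, h, inv_mul_cancel]
  have hf' : f = e * z := by rw [hz]; group
  -- `u⁻¹ v` commutes with `p e`
  have pu : u * X.p e * u⁻¹ = X.p e * X.p e := by
    have := congrArg X.p hu
    rwa [X.p_act, map_mul] at this
  have pv : v * X.p e * v⁻¹ = X.p e * X.p e := by
    have := congrArg X.p hv
    rwa [X.p_act, map_mul, ← h] at this
  have hc : (u⁻¹ * v) * X.p e = X.p e * (u⁻¹ * v) := by
    have : v * X.p e * v⁻¹ = u * X.p e * u⁻¹ := by rw [pu, pv]
    calc (u⁻¹ * v) * X.p e = u⁻¹ * (v * X.p e * v⁻¹) * v := by group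
      _ = X.p e * (u⁻¹ * v) := by rw [this]; group
  have h1 : X.act v e = e * e := by
    have : v = u * (u⁻¹ * v) := by group
    rw [this, X.act_mul, X.act_comm hc, hu]
  rw [hf', X.map_act_mul, h1, X.act_ker _ hz1] at hv
  -- hv : e * e * z = e * z * (e * z)
  have h2 : e * z * (e * z) = e * e * z * z := by
    have := X.central z hz1 e
    calc e * z * (e * z) = e * (z * e) * z := by group
      _ = e * e * z * z := by rw [this]; group
  rw [h2] at hv
  have h3 : z = 1 := left_eq_mul.1 hv
  rw [hf', h3, mul_one]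

lemma Canon.act {e : E} (he : X.Canon e) (g : G) : X.Canon (X.act g e) := by
  obtain ⟨u, hu⟩ := he
  refine ⟨g * u * g⁻¹, ?_⟩
  rw [X.act_mul, X.act_inv_act, X.act_mul, hu, X.map_act_mul]

lemma Canon.sq {e : E} (he : X.Canon e) : X.Canon (e * e) := by
  obtain ⟨u, hu⟩ := he
  exact ⟨u, by rw [X.map_act_mul, hu]⟩

lemma Canon.conj {e : E} (he : X.Canon e) (a : E) : X.Canon (a * e * a⁻¹) := by
  rw [← X.act_p]
  exact he.act _

variable (X)

/-- Every element which is conjugate to its square has a canonical lift. -/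
lemma exists_canon {g u : G} (h : u * g * u⁻¹ = g * g) :
    ∃ e, X.p e = g ∧ X.act u e = e * e := by
  obtain ⟨y, rfl⟩ := X.surj g
  obtain ⟨z, hz⟩ : ∃ z, z = X.act u y * (y * y)⁻¹ := ⟨_, rfl⟩
  have hz1 : X.p z = 1 := by
    rw [hz, map_mul, X.p_act, h, map_inv, map_mul, mul_inv_cancel]
  refine ⟨y * z, by rw [map_mul, hz1, mul_one], ?_⟩
  have hc := X.central z hz1 y
  have h1 : X.act u y = z * (y * y) := by rw [hz]; group
  rw [X.map_act_mul, X.act_ker _ hz1, h1]
  calc z * (y * y) * z = (z * y) * y * z := by group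
    _ = y * z * (y * z) := by rw [hc]; group

/-- `g` has a canonical lift. -/
def HasC (g : G) : Prop := ∃ e, X.Canon e ∧ X.p e = g

open Classical in
/-- The canonical lift of `g`. -/
noncomputable def cn (g : G) : E := if h : X.HasC g then h.choose else 1

variable {X}

lemma HasC.canon {g : G} (h : X.HasC g) : X.Canon (X.cn g) := by
  rw [cn, dif_pos h]
  exact h.choose_spec.1

lemma HasC.p_cn {g : G} (h : X.HasC g) : X.p (X.cn g) = g := by
  rw [cn, dif_pos h]
  exact h.choose_spec.2

lemma Canon.hasC {e : E} (h : X.Canon e) : X.HasC (X.p e) := ⟨e, h, rfl⟩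

lemma Canon.cn_eq {e : E} (h : X.Canon e) {g : G} (hg : X.p e = g) : X.cn g = e := by
  subst hg
  exact h.hasC.canon.unique h h.hasC.p_cn

lemma HasC.conj {g : G} (h : X.HasC g) (a : G) : X.HasC (a * g * a⁻¹) := by
  obtain ⟨e, he, rfl⟩ := h
  exact ⟨X.act a e, he.act a, X.p_act a e⟩

lemma HasC.cn_conj {g : G} (h : X.HasC g) (a : G) : X.cn (a * g * a⁻¹) = X.act a (X.cn g) := by
  apply (h.canon.act a).cn_eq
  rw [X.p_act, h.p_cn]

lemma HasC.sq {g : G} (h : X.HasC g) : X.HasC (g * g) := by
  obtain ⟨e, he, rfl⟩ := h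
  exact ⟨e * e, he.sq, map_mul _ _ _⟩

lemma HasC.cn_sq {g : G} (h : X.HasC g) : X.cn (g * g) = X.cn g * X.cn g := by
  apply h.canon.sq.cn_eq
  rw [map_mul, h.p_cn]

end Ext

end MP70cc9d
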