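import Pool.Agent.Lib.MP_70cc9d.Section

/-!
# Flat germs: the power maps and the dilations
-/

open Set Filter Topology

noncomputable section

namespace MP70cc9d

/-- classes of germs at `0` which are tangent to the identity to the order `n`, are defined on
`(-R, R)` and are `ε`-close to the identity there -/
def flat (n : ℕ) (R ε : ℝ) : Set HGroup :=
  {γ | ∃ u : LD, u.lo ≤ -R ∧ R ≤ u.hi ∧ (∀ x ∈ Ioo (-R) R, |u.f x - x| ≤ ε) ∧
    (fun x => u.f x - x) =O[𝓝 0] (fun x => x ^ (n + 1)) ∧ γ = cls u}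

/-- germs at `0` tangent to the identity to the order `n` -/
def Gf (n : ℕ) (f : ℝ → ℝ) : Prop :=
  AnalyticAt ℝ f 0 ∧ (fun x => f x - x) =O[𝓝 0] (fun x => x ^ (n + 1))

lemma Gf.gm {n : ℕ} {f : ℝ → ℝ} (h : Gf n f) (hn : 1 ≤ n) : Gm f 1 := by
  have h0 : f 0 = 0 := by
    obtain ⟨C, hC⟩ := h.2.bound
    have := hC.self_of_nhds
    simpa using this
  refine ⟨h.1, h0, ?_⟩
  have h1 : (fun x => f x - x) =o[𝓝 0] fun x : ℝ => x := by
    refine h.2.trans_isLittleO ?_
    simpa using Asymptotics.isLittleO_pow_id (𝕜 := ℝ) (n := n + 1) (by omega)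
  rw [hasDerivAt_iff_isLittleO]
  simpa [h0] using h1

/-- the class of the power map -/
def Pw (n : ℕ) : HGroup := cl (fun x => x ^ n) 1

lemma gd_pow {n : ℕ} (hn : 1 ≤ n) {x : ℝ} (hx : 0 < x) : Gd (fun x => x ^ n) x := by
  refine ⟨analyticAt_id.pow n, ?_⟩
  rw [(hasDerivAt_pow n x).deriv]
  have : (0 : ℝ) < n := by exact_mod_cast hn
  positivity

lemma cl_pow {n : ℕ} (hn : 1 ≤ n) {x : ℝ} (hx : 0 < x) : cl (fun x => x ^ n) x = Pw n := by
  rcases le_total x 1 with h | h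
  · exact cl_const h fun z hz => gd_pow hn (hx.trans_le hz.1)
  · exact (cl_const h fun z hz => gd_pow hn (zero_lt_one.trans_le hz.1)).symm

lemma Pw_D {n : ℕ} (hn : 1 ≤ n) {c : ℝ} (hc : 0 < c) : Pw n * D c = D (c ^ n) * Pw n := by
  have h1 := cl_comp (gd_mul hc 1) (gd_pow hn (x := c * 1) (by simpa using hc))
  have h2 := cl_comp (gd_pow hn (x := 1) one_pos) (gd_mul (pow_pos hc n) _)
  rw [cl_mul hc, cl_pow hn (by simpa using hc)] at h1
  rw [cl_mul (pow_pos hc n), cl_pow hn one_pos] at h2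
  rw [← h1, ← h2]
  congr 1
  funext y
  simp [mul_pow]

/-- The flat germ obtained from a germ tangent to the identity by the substitution `x ↦ x ^ n`. -/
lemma exists_flat {f : ℝ → ℝ} (hf : Gm f 1) {n : ℕ} (hn : 1 ≤ n) :
    ∃ g, Gf n g ∧ Pw n * cl g 0 = cl f 0 * Pw n := by
  -- `f x = x * u x`
  let u : ℝ → ℝ := dslope f 0
  have hu : AnalyticAt ℝ u 0 := by
    obtain ⟨p, hp⟩ := hf.1
    exact hp.has_fpower_series_dslope_fslope.analyticAt
  have hu0 : u 0 = 1 := by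
    simp only [u, dslope_same, hf.2.2.deriv]
  have hfu : ∀ x, f x = x * u x := by
    intro x
    have := sub_smul_dslope f 0 x
    rw [hf.2.1, sub_zero, sub_zero, smul_eq_mul] at this
    exact this.symm
  -- the root
  let w : ℝ → ℝ := fun y => Real.exp ((n : ℝ)⁻¹ * Real.log (u y))
  have hw : AnalyticAt ℝ w 0 := by
    have h1 : AnalyticAt ℝ (fun y => Real.log (u y)) 0 :=
      AnalyticAt.comp (g := Real.log) (f := u) (by rw [hu0]; exact analyticAt_log one_pos) hu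
    exact (analyticAt_const.mul h1).rexp
  have hw0 : w 0 = 1 := by simp [w, hu0]
  have hn0 : n ≠ 0 := by omega
  have hnr : (n : ℝ) ≠ 0 := by exact_mod_cast hn0
  have hpow : AnalyticAt ℝ (fun x : ℝ => x ^ n) 0 := analyticAt_id.pow n
  have hwp : AnalyticAt ℝ (fun x => w (x ^ n)) 0 :=
    AnalyticAt.comp (g := w) (f := fun x : ℝ => x ^ n) (by simpa [hn0] using hw) hpow
  refine ⟨fun x => x * w (x ^ n), ⟨analyticAt_id.mul hwp, ?_⟩, ?_⟩
  · have h1 : (fun y => w y - 1) =O[𝓝 0] fun y : ℝ => y := by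
      have := hw.differentiableAt.isBigO_sub
      simpa [hw0] using this
    have ht : Tendsto (fun x : ℝ => x ^ n) (𝓝 0) (𝓝 0) := by
      have := hpow.continuousAt.tendsto
      simpa [hn0] using this
    have h2 := h1.comp_tendsto ht
    have h3 := (Asymptotics.isBigO_refl (fun x : ℝ => x) (𝓝 0)).mul h2
    refine (h3.congr (fun x => ?_) fun x => ?_)
    · simp only [Function.comp]; ring
    · simp only [Function.comp]; ring
  · -- a small positive base point
    set g : ℝ → ℝ := fun x => x * w (x ^ n) with hg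
    have hgf : Gm g 1 := by
      refine ⟨analyticAt_id.mul hwp, by simp [g], ?_⟩
      have h1 : HasDerivAt (fun x => w (x ^ n)) (deriv (fun x => w (x ^ n)) 0) 0 :=
        hwp.differentiableAt.hasDerivAt
      have h2 := (hasDerivAt_id (0 : ℝ)).mul h1
      refine h2.congr_deriv ?_
      simp [hn0, hw0]
    have e1 : ∀ᶠ x in 𝓝 (0 : ℝ), Gd g x := (hgf.gd one_pos).eventually
    have e2 : ∀ᶠ x in 𝓝 (0 : ℝ), Gd f x := (hf.gd one_pos).eventually
    have e3 : ∀ᶠ x in 𝓝 (0 : ℝ), 0 < u x :=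
      hu.continuousAt.eventually (by rw [hu0]; exact lt_mem_nhds one_pos)
    obtain ⟨r, hr, h⟩ := exists_Ioo (e1.and (e2.and e3))
    obtain ⟨x0, hx0, hx1, hx2⟩ : ∃ x0 : ℝ, 0 < x0 ∧ x0 < r ∧ x0 < 1 := by
      obtain ⟨x0, h1, h2⟩ := exists_between (show (0 : ℝ) < min r 1 from lt_min hr one_pos)
      exact ⟨x0, h1, h2.trans_le (min_le_left _ _), h2.trans_le (min_le_right _ _)⟩
    have hx0n : 0 < x0 ^ n := pow_pos hx0 n
    have hx0n' : x0 ^ n < r := lt_of_le_of_lt (pow_le_of_le_one hx0.le hx2.le hn0) hx1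
    have key : ∀ x, 0 < x → x < r → x < 1 → g x ^ n = f (x ^ n) := by
      intro x h1 h2 h3
      have h4 : x ^ n < r := lt_of_le_of_lt (pow_le_of_le_one h1.le h3.le hn0) h2
      have h5 : 0 < u (x ^ n) := (h (x ^ n) ⟨by linarith [pow_pos h1 n], by linarith⟩).2.2
      simp only [g, w]
      rw [mul_pow, ← Real.exp_nat_mul, ← mul_assoc, mul_inv_cancel₀ hnr, one_mul,
        Real.exp_log h5, ← hfu]
    have hg0 : 0 < g x0 := mul_pos hx0 (Real.exp_pos _)
    have hgx : Gd g x0 := (h x0 ⟨by linarith, by linarith⟩).1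
    have hfx : Gd f (x0 ^ n) := (h (x0 ^ n) ⟨by linarith, by linarith⟩).2.1
    have c1 := cl_comp hgx (gd_pow hn hg0)
    have c2 := cl_comp (gd_pow hn hx0) hfx
    rw [cl_pow hn hg0] at c1
    rw [cl_pow hn hx0] at c2
    have d1 : cl g 0 = cl g x0 := cl_const hx0.le fun z hz =>
      (h z ⟨by linarith [hz.1], by linarith [hz.2]⟩).1
    have d2 : cl f 0 = cl f (x0 ^ n) := cl_const hx0n.le fun z hz =>
      (h z ⟨by linarith [hz.1], by linarith [hz.2]⟩).2.1
    rw [d1, d2, ← c1, ← c2]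
    refine cl_congr ((gd_pow hn hg0).comp hgx) ?_
    filter_upwards [isOpen_Ioo.mem_nhds (show x0 ∈ Ioo 0 (min r 1) from
      ⟨hx0, lt_min hx1 hx2⟩)] with x hx
    exact key x hx.1 (hx.2.trans_le (min_le_left _ _)) (hx.2.trans_le (min_le_right _ _))

/-- Two flat germs can be brought close to the identity by conjugation with a dilation. -/
lemma exists_scale {n : ℕ} (hn : 1 ≤ n) {f g : ℝ → ℝ} (hf : Gf n f) (hg : Gf n g) {R ε : ℝ}
    (hR : 0 < R) (hε : 0 < ε) :
    ∃ μ : ℝ, 0 < μ ∧ D μ * cl f 0 * (D μ)⁻¹ ∈ flat n R ε ∧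
      D μ * cl g 0 * (D μ)⁻¹ ∈ flat n R ε := by
  -- it suffices to treat one germ, eventually in `μ`
  have one : ∀ f : ℝ → ℝ, Gf n f →
      ∀ᶠ μ : ℝ in atTop, D μ * cl f 0 * (D μ)⁻¹ ∈ flat n R ε := by
    intro f hf
    have hf1 := hf.gm hn
    have hO : (fun x => f x - x) =O[𝓝 0] fun x : ℝ => x ^ 2 := by
      refine hf.2.trans ?_
      refine Asymptotics.IsBigO.of_bound 1 ?_
      filter_upwards [Metric.ball_mem_nhds (0 : ℝ) one_pos] with x hx
      rw [mem_ball_zero_iff] at hx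
      rw [norm_pow, norm_pow, one_mul]
      exact pow_le_pow_of_le_one (norm_nonneg _) hx.le (by omega)
    obtain ⟨C, hC0, hC⟩ := hO.exists_pos
    rw [Asymptotics.isBigOWith_iff] at hC
    obtain ⟨r, hr, h⟩ := exists_Ioo (hC.and (hf1.gd one_pos).eventually)
    filter_upwards [eventually_gt_atTop (0 : ℝ), eventually_gt_atTop (R / r),
      eventually_ge_atTop (C * R ^ 2 / ε)] with μ h0 h1 h2
    have hmem : ∀ x ∈ Ioo (-R) R, μ⁻¹ * x ∈ Ioo (0 - r) (0 + r) := by
      intro x hx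
      rw [div_lt_iff₀ hr] at h1
      have h3 : μ⁻¹ * R < r := by
        rw [inv_mul_lt_iff₀ h0]; exact h1
      constructor
      · have : μ⁻¹ * (-R) < μ⁻¹ * x := mul_lt_mul_of_pos_left hx.1 (inv_pos.2 h0)
        linarith
      · have : μ⁻¹ * x < μ⁻¹ * R := mul_lt_mul_of_pos_left hx.2 (inv_pos.2 h0)
        linarith
    have hgd : ∀ x ∈ Ioo (-R) R, Gd ((fun y => μ * y) ∘ (f ∘ fun y => μ⁻¹ * y)) x := by
      intro x hx
      exact Gd.comp (g := fun y => μ * y) (f := f ∘ fun y => μ⁻¹ * y) (gd_mul h0 _)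
        (Gd.comp (g := f) (f := fun y => μ⁻¹ * y) (h _ (hmem x hx)).2 (gd_mul (inv_pos.2 h0) _))
    have h00 : (0 : ℝ) ∈ Ioo (-R) R := ⟨by linarith, hR⟩
    refine ⟨mk' _ (-R) R (by linarith) hgd, le_rfl, le_rfl, ?_, ?_, ?_⟩
    · intro x hx
      have h3 := (h _ (hmem x hx)).1
      simp only [mk', Function.comp]
      have e : μ * f (μ⁻¹ * x) - x = μ * (f (μ⁻¹ * x) - μ⁻¹ * x) := by
        field_simp
      rw [e, abs_mul, abs_of_pos h0]
      rw [Real.norm_eq_abs, Real.norm_eq_abs, abs_of_nonneg (sq_nonneg (μ⁻¹ * x))] at h3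
      have hx2 : x ^ 2 ≤ R ^ 2 := by
        rw [sq_le_sq, abs_of_pos hR]
        exact abs_le.2 ⟨hx.1.le, hx.2.le⟩
      calc μ * |f (μ⁻¹ * x) - μ⁻¹ * x| ≤ μ * (C * (μ⁻¹ * x) ^ 2) := by gcongr
        _ = C * x ^ 2 / μ := by field_simp
        _ ≤ C * R ^ 2 / μ := by gcongr
        _ ≤ ε := by
          rw [div_le_iff₀ h0]
          rw [div_le_iff₀ hε] at h2
          linarith
    · have ht : Tendsto (fun x : ℝ => μ⁻¹ * x) (𝓝 0) (𝓝 0) := by
        have : Continuous fun x : ℝ => μ⁻¹ * x := by fun_prop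
        simpa using this.tendsto 0
      have h3 := (hf.2.comp_tendsto ht).const_mul_left μ
      have h4 : (fun x : ℝ => μ * ((fun x => f x - x) ∘ fun x => μ⁻¹ * x) x) =
          fun x => (mk' _ (-R) R (by linarith) hgd).f x - x := by
        funext x
        simp only [mk', Function.comp]
        field_simp
      rw [h4] at h3
      refine h3.trans ?_
      refine Asymptotics.IsBigO.of_bound (‖μ⁻¹ ^ (n + 1)‖) (Eventually.of_forall fun x => ?_)
      simp only [Function.comp]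
      rw [mul_pow, norm_mul]
    · have e1 := cl_eq (mk' _ (-R) R (by linarith) hgd) (x := 0) h00 EventuallyEq.rfl
      rw [← e1]
      simp only [mk']
      have m1 : Gm (f ∘ fun y => μ⁻¹ * y) (1 * μ⁻¹) := hf1.comp (gm_mul μ⁻¹)
      rw [cl_comp_gm (gm_mul μ) m1 (by simpa using h0) h0,
        cl_comp_gm hf1 (gm_mul μ⁻¹) (inv_pos.2 h0) one_pos, D_inv h0, mul_assoc]
      rfl
  obtain ⟨μ, h1, h2, h3⟩ := ((one f hf).and ((one g hg).and (eventually_gt_atTop 0))).exists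
  exact ⟨μ, h3, h1, h2⟩

end MP70cc9d
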