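import Mathlib

/-!
# Koenigs linearisation of real-analytic germs with multiplier in `(0, 1)`
-/

open Set Filter Topology

noncomputable section

namespace MP70cc9d

/-- Koenigs linearisation over the complex numbers, for a multiplier in `(0, 1)`. -/
theorem koenigs_complex {F : ℂ → ℂ} (hF : AnalyticAt ℂ F 0) (h0 : F 0 = 0) {l : ℝ}
    (hl0 : 0 < l) (hl1 : l < 1) (hd : deriv F 0 = (l : ℂ)) :
    ∃ H : ℂ → ℂ, AnalyticAt ℂ H 0 ∧ H 0 = 0 ∧ HasDerivAt H 1 0 ∧
      ∀ᶠ z in 𝓝 0, H (F z) = l * H z := by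
  -- choice of `s`
  obtain ⟨s, hs1, hs2⟩ : ∃ s : ℝ, max l 0 < s ∧ s < Real.sqrt l := by
    apply exists_between
    rw [max_eq_left hl0.le]
    exact Real.lt_sqrt_of_sq_lt (by nlinarith)
  rw [max_eq_left hl0.le] at hs1
  have hs0 : 0 < s := hl0.trans hs1
  have hsl : s ^ 2 < l := by
    rw [← Real.sq_sqrt hl0.le]
    exact pow_lt_pow_left₀ hs2 hs0.le two_ne_zero
  have hs_lt : s < 1 := hs2.trans (by
    rw [show (1 : ℝ) = Real.sqrt 1 by simp]
    exact Real.sqrt_lt_sqrt hl0.le hl1)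
  -- quadratic estimate
  have hq : (fun z => F z - l * z) =O[𝓝 0] fun z => z ^ 2 := by
    obtain ⟨p, hp⟩ := hF
    have h1 := hp.isBigO_sub_partialSum_pow 2
    have h2 : ∀ z : ℂ, p.partialSum 2 z = l * z := by
      intro z
      have e0 : p.coeff 0 = 0 := by
        have := hp.coeff_zero (fun _ => 1)
        rw [h0] at this
        exact this
      have e1 : p.coeff 1 = (l : ℂ) := by
        rw [← hd]
        exact hp.deriv.symm
      rw [FormalMultilinearSeries.partialSum, Finset.sum_range_succ, Finset.sum_range_one]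
      rw [FormalMultilinearSeries.apply_eq_pow_smul_coeff,
        FormalMultilinearSeries.apply_eq_pow_smul_coeff, e0, e1]
      simp [mul_comm]
    simp only [zero_add, h2] at h1
    refine h1.trans ?_
    refine Asymptotics.IsBigO.of_bound 1 (Eventually.of_forall fun z => ?_)
    simp
  obtain ⟨C, hC0, hC⟩ := hq.exists_pos
  rw [Asymptotics.isBigOWith_iff] at hC
  have hb : ∀ᶠ z in 𝓝 (0 : ℂ), ‖F z‖ ≤ s * ‖z‖ := by
    have h1 : ∀ᶠ z in 𝓝 (0 : ℂ), C * ‖z‖ < s - l := by
      have : Tendsto (fun z : ℂ => C * ‖z‖) (𝓝 0) (𝓝 (C * ‖(0 : ℂ)‖)) :=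
        (continuous_const.mul continuous_norm).tendsto 0
      rw [norm_zero, mul_zero] at this
      exact this.eventually (gt_mem_nhds (by linarith))
    filter_upwards [h1, hC] with z hz1 hz2
    have : ‖F z‖ ≤ ‖F z - l * z‖ + ‖(l : ℂ) * z‖ := by
      have := norm_add_le (F z - l * z) (l * z)
      rwa [sub_add_cancel] at this
    rw [norm_mul, Complex.norm_real, Real.norm_of_nonneg hl0.le] at this
    rw [norm_pow] at hz2
    have h3 : C * ‖z‖ ^ 2 ≤ (s - l) * ‖z‖ := by
      have := mul_le_mul_of_nonneg_right hz1.le (norm_nonneg z)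
      calc C * ‖z‖ ^ 2 = C * ‖z‖ * ‖z‖ := by ring
        _ ≤ _ := this
    linarith
  have hdiff : ∀ᶠ z in 𝓝 (0 : ℂ), DifferentiableAt ℂ F z :=
    hF.eventually_analyticAt.mono fun z hz => hz.differentiableAt
  obtain ⟨r, hr, hball⟩ := Metric.eventually_nhds_iff_ball.1 (hC.and (hb.and hdiff))
  -- iterates stay in the ball
  have hit : ∀ n : ℕ, ∀ z ∈ Metric.ball (0 : ℂ) r, ‖F^[n] z‖ ≤ s ^ n * ‖z‖ := by
    intro n
    induction n with
    | zero => intro z _; simp
    | succ n ih =>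
      intro z hz
      rw [Function.iterate_succ_apply']
      have h1 := ih z hz
      have h2 : F^[n] z ∈ Metric.ball (0 : ℂ) r := by
        rw [mem_ball_zero_iff] at hz ⊢
        refine h1.trans_lt (lt_of_le_of_lt ?_ hz)
        exact mul_le_of_le_one_left (norm_nonneg z) (pow_le_one₀ hs0.le hs_lt.le)
      calc ‖F (F^[n] z)‖ ≤ s * ‖F^[n] z‖ := (hball _ h2).2.1
        _ ≤ s * (s ^ n * ‖z‖) := by gcongr
        _ = s ^ (n + 1) * ‖z‖ := by ring
  have hmem : ∀ n : ℕ, ∀ z ∈ Metric.ball (0 : ℂ) r, F^[n] z ∈ Metric.ball (0 : ℂ) r := by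
    intro n z hz
    have h1 := hit n z hz
    rw [mem_ball_zero_iff] at hz ⊢
    refine h1.trans_lt (lt_of_le_of_lt ?_ hz)
    exact mul_le_of_le_one_left (norm_nonneg z) (pow_le_one₀ hs0.le hs_lt.le)
  -- the terms of the series
  let h : ℕ → ℂ → ℂ := fun n z => ((l : ℂ) ^ n)⁻¹ * F^[n] z
  let g : ℕ → ℂ → ℂ := fun n z => h (n + 1) z - h n z
  have hlc : (l : ℂ) ≠ 0 := by exact_mod_cast hl0.ne'
  have hg : ∀ n : ℕ, ∀ z ∈ Metric.ball (0 : ℂ) r,
      ‖g n z‖ ≤ C / l * (s ^ 2 / l) ^ n * ‖z‖ ^ 2 := by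
    intro n z hz
    have e1 : g n z = ((l : ℂ) ^ (n + 1))⁻¹ * (F (F^[n] z) - l * F^[n] z) := by
      simp only [g, h, Function.iterate_succ_apply']
      have hp : (l : ℂ) ^ n ≠ 0 := pow_ne_zero _ hlc
      rw [pow_succ]
      field_simp
    rw [e1, norm_mul, norm_inv, norm_pow, Complex.norm_real, Real.norm_of_nonneg hl0.le]
    have h2 := (hball _ (hmem n z hz)).1
    have h3 := hit n z hz
    rw [norm_pow] at h2
    calc (l ^ (n + 1))⁻¹ * ‖F (F^[n] z) - l * F^[n] z‖
        ≤ (l ^ (n + 1))⁻¹ * (C * (s ^ n * ‖z‖) ^ 2) := by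
          gcongr
          exact h2.trans (by gcongr)
      _ = C / l * (s ^ 2 / l) ^ n * ‖z‖ ^ 2 := by
          rw [div_pow, pow_succ]
          field_simp
          ring
  have hratio : s ^ 2 / l < 1 := (div_lt_one hl0).2 hsl
  have hratio0 : 0 ≤ s ^ 2 / l := by positivity
  have hsum0 : Summable fun n : ℕ => C / l * (s ^ 2 / l) ^ n :=
    (summable_geometric_of_lt_one hratio0 hratio).mul_left _
  have hsum : Summable fun n : ℕ => C / l * (s ^ 2 / l) ^ n * r ^ 2 := hsum0.mul_right _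
  have hitd : ∀ n : ℕ, DifferentiableOn ℂ (F^[n]) (Metric.ball 0 r) := by
    intro n
    induction n with
    | zero => simpa using! differentiableOn_id
    | succ n ih =>
      rw [Function.iterate_succ']
      intro z hz
      exact ((hball _ (hmem n z hz)).2.2.comp_differentiableWithinAt z (ih z hz))
  have hgd : ∀ n : ℕ, DifferentiableOn ℂ (g n) (Metric.ball 0 r) := by
    intro n
    exact ((differentiableOn_const _).mul (hitd (n + 1))).sub
      ((differentiableOn_const _).mul (hitd n))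
  have hgb : ∀ n : ℕ, ∀ z ∈ Metric.ball (0 : ℂ) r,
      ‖g n z‖ ≤ C / l * (s ^ 2 / l) ^ n * r ^ 2 := by
    intro n z hz
    refine (hg n z hz).trans ?_
    rw [mem_ball_zero_iff] at hz
    gcongr
  have hHd : DifferentiableOn ℂ (fun z => ∑' n, g n z) (Metric.ball 0 r) :=
    Complex.differentiableOn_tsum_of_summable_norm hsum hgd Metric.isOpen_ball hgb
  have hball0 : Metric.ball (0 : ℂ) r ∈ 𝓝 (0 : ℂ) := Metric.ball_mem_nhds 0 hr
  refine ⟨fun z => z + ∑' n, g n z, ?_, ?_, ?_, ?_⟩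
  · exact (differentiableOn_id.add hHd).analyticAt hball0
  · have : ∀ n, g n 0 = 0 := by
      intro n
      have hF0 : ∀ n : ℕ, F^[n] 0 = 0 := fun n => Function.iterate_fixed h0 n
      simp only [g, h, hF0, mul_zero, sub_zero]
    simp [this]
  · have hb2 : ∀ᶠ z in 𝓝 (0 : ℂ), ‖∑' n, g n z‖ ≤ (∑' n, C / l * (s ^ 2 / l) ^ n) * ‖z‖ ^ 2 := by
      filter_upwards [hball0] with z hz
      rw [← tsum_mul_right]
      exact tsum_of_norm_bounded (hsum0.mul_right _).hasSum fun n => hg n z hz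
    have hO : (fun z => ∑' n, g n z) =O[𝓝 0] fun z : ℂ => ‖z‖ ^ 2 := by
      refine Asymptotics.IsBigO.of_bound (∑' n, C / l * (s ^ 2 / l) ^ n) ?_
      filter_upwards [hb2] with z hz
      simpa using hz
    have ho : (fun z => ∑' n, g n z) =o[𝓝 0] fun z : ℂ => z := by
      refine hO.trans_isLittleO ?_
      have := Asymptotics.isLittleO_pow_id (𝕜 := ℝ) (n := 2) one_lt_two
      have h2 := this.comp_tendsto (continuous_norm.tendsto' (0 : ℂ) 0 norm_zero)
      exact (Asymptotics.isLittleO_norm_right.1 h2)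
    rw [hasDerivAt_iff_isLittleO]
    have hg0 : ∑' n, g n 0 = 0 := by
      have : ∀ n, g n 0 = 0 := by
        intro n
        have hF0 : ∀ n : ℕ, F^[n] 0 = 0 := fun n => Function.iterate_fixed h0 n
        simp only [g, h, hF0, mul_zero, sub_zero]
      simp [this]
    simpa [hg0] using ho
  · filter_upwards [hball0] with z hz
    have hpart : ∀ w ∈ Metric.ball (0 : ℂ) r,
        Tendsto (fun n => h n w) atTop (𝓝 (w + ∑' n, g n w)) := by
      intro w hw
      have h1 : Summable fun n => g n w :=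
        Summable.of_norm_bounded hsum fun n => hgb n w hw
      have h2 := h1.hasSum.tendsto_sum_nat
      have h3 := (tendsto_const_nhds (x := w)).add h2
      refine h3.congr fun n => ?_
      have : ∑ i ∈ Finset.range n, g i w = h n w - h 0 w := Finset.sum_range_sub (fun n => h n w) n
      rw [this]
      simp [h]
    have h1 := hpart (F z) (by simpa using hmem 1 z hz)
    have h2 := ((hpart z hz).comp (tendsto_add_atTop_nat 1)).const_mul (l : ℂ)
    refine tendsto_nhds_unique h1 (h2.congr fun n => ?_)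
    simp only [h, Function.comp, Function.iterate_succ_apply]
    rw [pow_succ]
    field_simp

/-- A real-analytic function extends to a complex-analytic one. -/
theorem exists_complexification {f : ℝ → ℝ} {x : ℝ} (hf : AnalyticAt ℝ f x) :
    ∃ F : ℂ → ℂ, AnalyticAt ℂ F x ∧ ∀ᶠ t : ℝ in 𝓝 x, F t = f t := by
  obtain ⟨p, hp⟩ := hf
  obtain ⟨r, hr⟩ := hp
  let q : FormalMultilinearSeries ℂ ℂ ℂ :=
    FormalMultilinearSeries.ofScalars ℂ fun n => ((p.coeff n : ℝ) : ℂ)
  obtain ⟨ρ, hρ0, hρ⟩ : ∃ ρ : NNReal, 0 < ρ ∧ (ρ : ENNReal) < r :=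
    ENNReal.lt_iff_exists_nnreal_btwn.1 hr.r_pos |>.imp fun a ha => ⟨by exact_mod_cast ha.1, ha.2⟩
  have hsm : Summable fun n => ‖p n‖ * (ρ : ℝ) ^ n :=
    p.summable_norm_mul_pow (hρ.trans_le hr.r_le)
  have hqr : (ρ : ENNReal) ≤ q.radius := by
    apply q.le_radius_of_summable
    refine hsm.congr fun n => ?_
    congr 1
    rw [FormalMultilinearSeries.ofScalars_norm, Complex.norm_real,
      FormalMultilinearSeries.norm_apply_eq_norm_coef]
  have hq0 : 0 < q.radius := lt_of_lt_of_le (by exact_mod_cast hρ0) hqr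
  have hqs := q.hasFPowerSeriesOnBall hq0
  refine ⟨fun z => q.sum (z - x), ?_, ?_⟩
  · have h1 : AnalyticAt ℂ q.sum ((x : ℂ) - x) := by
      rw [sub_self]
      exact hqs.analyticAt
    exact h1.comp (f := fun z : ℂ => z - x) (analyticAt_id.sub analyticAt_const)
  · have hball : Metric.eball x ρ ∈ 𝓝 x := Metric.eball_mem_nhds x (by exact_mod_cast hρ0)
    filter_upwards [hball] with t ht
    have ht' : t - x ∈ Metric.eball (0 : ℝ) r := by
      rw [Metric.mem_eball] at ht ⊢
      rw [edist_eq_enorm_sub] at ht ⊢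
      rw [sub_zero]
      exact ht.trans hρ
    have h1 := hr.hasSum ht'
    rw [add_sub_cancel] at h1
    have htc : ((t : ℂ) - x) ∈ Metric.eball (0 : ℂ) q.radius := by
      rw [Metric.mem_eball, edist_eq_enorm_sub, sub_zero]
      rw [Metric.mem_eball, edist_eq_enorm_sub] at ht
      refine lt_of_lt_of_le ?_ hqr
      have : ‖(t : ℂ) - x‖ₑ = ‖t - x‖ₑ := by
        rw [← Complex.ofReal_sub, ← ofReal_norm, ← ofReal_norm,
          Complex.norm_real]
      rw [this]
      exact ht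
    have h2 := hqs.hasSum htc
    rw [zero_add] at h2
    have h3 : HasSum (fun n => ((((p n) fun _ => t - x : ℝ)) : ℂ)) ((f t : ℝ) : ℂ) :=
      Complex.hasSum_ofReal.2 h1
    refine h2.unique (h3.congr_fun ?_)
    intro n
    rw [FormalMultilinearSeries.apply_eq_pow_smul_coeff,
      FormalMultilinearSeries.apply_eq_pow_smul_coeff]
    simp [q]

/-- Koenigs linearisation of a real-analytic germ. -/
theorem koenigs {f : ℝ → ℝ} (hf : AnalyticAt ℝ f 0) (h0 : f 0 = 0) (hl0 : 0 < deriv f 0)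
    (hl1 : deriv f 0 < 1) :
    ∃ h : ℝ → ℝ, AnalyticAt ℝ h 0 ∧ h 0 = 0 ∧ deriv h 0 = 1 ∧
      ∀ᶠ t in 𝓝 0, h (f t) = deriv f 0 * h t := by
  obtain ⟨F, hF, hFf⟩ := exists_complexification hf
  rw [Complex.ofReal_zero] at hF
  have hF0 : F 0 = 0 := by
    have := hFf.self_of_nhds
    rw [h0] at this
    simpa using this
  have hdF : deriv F 0 = ((deriv f 0 : ℝ) : ℂ) := by
    have h1 : HasDerivAt (fun t : ℝ => F t) (deriv F 0) 0 := by
      have := hF.differentiableAt.hasDerivAt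
      have h2 : HasDerivAt F (deriv F 0) ((0 : ℝ) : ℂ) := by simpa using this
      exact h2.comp_ofReal
    have h2 : HasDerivAt (fun t : ℝ => ((f t : ℝ) : ℂ)) ((deriv f 0 : ℝ) : ℂ) 0 :=
      (hf.differentiableAt.hasDerivAt).ofReal_comp
    exact (h1.congr_of_eventuallyEq (hFf.mono fun t ht => ht.symm)).unique h2
  obtain ⟨H, hH, hH0, hH1, hHe⟩ := koenigs_complex hF hF0 hl0 hl1 hdF
  have hHc : AnalyticAt ℂ H ((0 : ℝ) : ℂ) := by simpa using hH
  refine ⟨fun t => (H t).re, ?_, by simp [hH0], ?_, ?_⟩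
  · have h1 : AnalyticAt ℝ H ((0 : ℝ) : ℂ) := hHc.restrictScalars
    have h2 : AnalyticAt ℝ (fun t : ℝ => H t) 0 :=
      AnalyticAt.comp (g := H) (f := fun t : ℝ => (t : ℂ)) h1 (Complex.ofRealCLM.analyticAt 0)
    exact (Complex.reCLM.analyticAt _).comp h2
  · have h1 : HasDerivAt (fun t : ℝ => H t) 1 0 := by
      have h2 : HasDerivAt H 1 ((0 : ℝ) : ℂ) := by simpa using hH1
      exact h2.comp_ofReal
    have h2 : HasDerivAt (fun t : ℝ => (H t).re) 1 0 := by
      have := (Complex.reCLM.hasFDerivAt (x := H ((0 : ℝ) : ℂ))).comp_hasDerivAt 0 h1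
      rw [Complex.reCLM_apply, Complex.one_re] at this
      exact this
    exact h2.deriv
  · have hc : Tendsto (fun t : ℝ => (t : ℂ)) (𝓝 0) (𝓝 0) := by
      simpa using Complex.continuous_ofReal.tendsto 0
    filter_upwards [hFf, hc.eventually hHe] with t ht1 ht2
    rw [← ht1, ht2]
    simp

end MP70cc9d
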