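import Pool.Agent.Lib.MP_70cc9d.Affine
import Pool.Agent.Lib.MP_70cc9d.Koenigs

/-!
# Germs at `0` tangent to the identity
-/

open Set Filter Topology

noncomputable section

namespace MP70cc9d

/-- A germ at `0` fixing `0` with multiplier `c`. -/
def Gm (f : ℝ → ℝ) (c : ℝ) : Prop := AnalyticAt ℝ f 0 ∧ f 0 = 0 ∧ HasDerivAt f c 0

/-- The classes of the germs at `0` which are tangent to the identity. -/
def KS : Set HGroup := {γ | ∃ f, Gm f 1 ∧ γ = cl f 0}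

lemma Gm.gd {f : ℝ → ℝ} {c : ℝ} (h : Gm f c) (hc : 0 < c) : Gd f 0 :=
  ⟨h.1, by rw [h.2.2.deriv]; exact hc⟩

lemma Gm.comp {f g : ℝ → ℝ} {c d : ℝ} (hg : Gm g d) (hf : Gm f c) : Gm (g ∘ f) (d * c) := by
  refine ⟨hg.1.comp_of_eq hf.1 hf.2.1, by simp [hf.2.1, hg.2.1], ?_⟩
  exact HasDerivAt.comp 0 (by rw [hf.2.1]; exact hg.2.2) hf.2.2

lemma gm_mul (c : ℝ) : Gm (fun y => c * y) c := by
  refine ⟨analyticAt_const.mul analyticAt_id, by simp, ?_⟩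
  simpa using (hasDerivAt_id (0 : ℝ)).const_mul c

lemma gm_id : Gm id 1 := ⟨analyticAt_id, rfl, hasDerivAt_id 0⟩

lemma cl_comp_gm {f g : ℝ → ℝ} {c d : ℝ} (hg : Gm g d) (hf : Gm f c) (hc : 0 < c) (hd : 0 < d) :
    cl (g ∘ f) 0 = cl g 0 * cl f 0 := by
  have h := cl_comp (hf.gd hc) (by rw [hf.2.1]; exact hg.gd hd)
  rwa [hf.2.1] at h

/-- Local inverses. -/
lemma Gm.exists_inv {f : ℝ → ℝ} {c : ℝ} (hf : Gm f c) (hc : 0 < c) :
    ∃ g, Gm g c⁻¹ ∧ cl g 0 = (cl f 0)⁻¹ := by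
  have hd : deriv f 0 ≠ 0 := by rw [hf.2.2.deriv]; exact hc.ne'
  have hs : HasStrictDerivAt f (deriv f 0) 0 := hf.1.hasStrictDerivAt
  let g := hs.localInverse f (deriv f 0) 0 hd
  have hg1 : AnalyticAt ℝ g (f 0) := hf.1.analyticAt_localInverse hd
  have hg2 : ∀ᶠ x in 𝓝 0, g (f x) = x := hs.eventually_left_inverse hd
  have hg3 : HasStrictDerivAt g (deriv f 0)⁻¹ (f 0) := hs.to_localInverse hd
  rw [hf.2.1] at hg1 hg3
  have hg0 : g 0 = 0 := by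
    have := hg2.self_of_nhds
    rwa [hf.2.1] at this
  have hg : Gm g c⁻¹ := ⟨hg1, hg0, by
    have := hg3.hasDerivAt
    rwa [hf.2.2.deriv] at this⟩
  refine ⟨g, hg, ?_⟩
  have h1 := cl_comp_gm hg hf hc (inv_pos.2 hc)
  have h2 : cl (g ∘ f) 0 = 1 := by
    rw [← cl_id 0]
    exact cl_congr ((hg.comp hf).gd (by rw [inv_mul_cancel₀ hc.ne']; exact one_pos)) hg2
  rw [h2] at h1
  exact eq_inv_of_mul_eq_one_left h1.symm

lemma KS_one : (1 : HGroup) ∈ KS := ⟨id, gm_id, (cl_id 0).symm⟩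

lemma KS_mul {k l : HGroup} (hk : k ∈ KS) (hl : l ∈ KS) : k * l ∈ KS := by
  obtain ⟨f, hf, rfl⟩ := hk
  obtain ⟨g, hg, rfl⟩ := hl
  refine ⟨f ∘ g, by simpa using hf.comp hg, (cl_comp_gm hf hg one_pos one_pos).symm⟩

lemma KS_inv {k : HGroup} (hk : k ∈ KS) : k⁻¹ ∈ KS := by
  obtain ⟨f, hf, rfl⟩ := hk
  obtain ⟨g, hg, h⟩ := hf.exists_inv one_pos
  exact ⟨g, by simpa using hg, h.symm⟩

lemma cl_mul_zero (c : ℝ) : cl (fun y => c * y) 0 = D c := rfl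

lemma D_inv {c : ℝ} (hc : 0 < c) : (D c)⁻¹ = D c⁻¹ := by
  have h := D_mul hc (inv_pos.2 hc)
  rw [mul_inv_cancel₀ hc.ne', D_one] at h
  exact inv_eq_of_mul_eq_one_right h.symm

/-- A germ with multiplier `c` is an element of `K` times the dilation by `c`. -/
lemma Gm.mul_D_inv {f : ℝ → ℝ} {c : ℝ} (hf : Gm f c) (hc : 0 < c) :
    cl f 0 * (D c)⁻¹ ∈ KS := by
  refine ⟨f ∘ fun y => c⁻¹ * y, ?_, ?_⟩
  · have := hf.comp (gm_mul c⁻¹)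
    rwa [mul_inv_cancel₀ hc.ne'] at this
  · rw [cl_comp_gm hf (gm_mul c⁻¹) (inv_pos.2 hc) hc, D_inv hc]
    rfl

lemma KS_conj_D {k : HGroup} (hk : k ∈ KS) {c : ℝ} (hc : 0 < c) : D c * k * (D c)⁻¹ ∈ KS := by
  obtain ⟨f, hf, rfl⟩ := hk
  have h1 : Gm ((fun y => c * y) ∘ f) (c * 1) := (gm_mul c).comp hf
  rw [mul_one] at h1
  have h2 := h1.mul_D_inv hc
  rwa [cl_comp_gm (gm_mul c) hf one_pos hc] at h2

lemma KS_conj_D' {k : HGroup} (hk : k ∈ KS) {c : ℝ} (hc : 0 < c) : (D c)⁻¹ * k * D c ∈ KS := by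
  have h := KS_conj_D hk (inv_pos.2 hc)
  rwa [← D_inv hc, inv_inv] at h

/-- Koenigs: a germ with multiplier in `(0,1)` is conjugate to the dilation by an element
of `K`. -/
lemma Gm.koenigs {f : ℝ → ℝ} {c : ℝ} (hf : Gm f c) (hc : 0 < c) (hc1 : c < 1) :
    ∃ h ∈ KS, cl f 0 = h * D c * h⁻¹ := by
  have hd := hf.2.2.deriv
  obtain ⟨h, h1, h2, h3, h4⟩ := MP70cc9d.koenigs hf.1 hf.2.1 (by rw [hd]; exact hc)
    (by rw [hd]; exact hc1)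
  rw [hd] at h4
  have hh : Gm h 1 := ⟨h1, h2, by
    have := h1.differentiableAt.hasDerivAt
    rwa [h3] at this⟩
  have e1 := cl_comp_gm hh hf hc one_pos
  have e2 := cl_comp_gm (gm_mul c) hh one_pos hc
  have e3 : cl (h ∘ f) 0 = cl ((fun y => c * y) ∘ h) 0 :=
    cl_congr ((hh.comp hf).gd (by rw [one_mul]; exact hc)) h4
  rw [e1, e2] at e3
  refine ⟨(cl h 0)⁻¹, KS_inv ⟨h, hh, rfl⟩, ?_⟩
  rw [inv_inv, ← cl_mul_zero c, mul_assoc, ← e3]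
  group

/-- The same for products `k * D c`. -/
lemma KS_koenigs {k : HGroup} (hk : k ∈ KS) {c : ℝ} (hc : 0 < c) (hc1 : c < 1) :
    ∃ h ∈ KS, k * D c = h * D c * h⁻¹ := by
  obtain ⟨f, hf, rfl⟩ := hk
  have h1 : Gm (f ∘ fun y => c * y) (1 * c) := hf.comp (gm_mul c)
  rw [one_mul] at h1
  have h2 := h1.koenigs hc hc1
  rwa [cl_comp_gm hf (gm_mul c) hc one_pos] at h2

end MP70cc9d
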