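import Pool.Agent.Lib.MP_70cc9d.KSet
import Pool.Agent.Lib.MP_70cc9d.Ext

/-!
# Canonical lifts of translations and dilations, and the splitting over the germs at `0`
-/

open Set Filter Topology

noncomputable section

namespace MP70cc9d

variable {E : Type*} [Group E] (X : Ext HGroup E)

lemma D_two_T (a : ℝ) : D 2 * T a * (D 2)⁻¹ = T a * T a := by
  rw [D_T two_pos, mul_inv_cancel_right, ← T_add, two_mul]

/-- canonical lift of the translation by `a` -/
def Th (a : ℝ) : E := (X.exists_canon (D_two_T a)).choose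

lemma p_Th (a : ℝ) : X.p (Th X a) = T a := (X.exists_canon (D_two_T a)).choose_spec.1

lemma act_Th (a : ℝ) : X.act (D 2) (Th X a) = Th X a * Th X a :=
  (X.exists_canon (D_two_T a)).choose_spec.2

lemma Th_canon (a : ℝ) : X.Canon (Th X a) := ⟨_, act_Th X a⟩

lemma Th_comm (a b : ℝ) : Th X a * Th X b = Th X b * Th X a := by
  apply X.comm
  rw [p_Th, p_Th, ← T_add, ← T_add, add_comm]

lemma Th_add (a b : ℝ) : Th X (a + b) = Th X a * Th X b := by
  have h : X.Canon (Th X a * Th X b) := by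
    refine ⟨D 2, ?_⟩
    rw [X.map_act_mul, act_Th, act_Th]
    calc Th X a * Th X a * (Th X b * Th X b)
        = Th X a * (Th X a * Th X b) * Th X b := by group
      _ = Th X a * (Th X b * Th X a) * Th X b := by rw [Th_comm X a b]
      _ = Th X a * Th X b * (Th X a * Th X b) := by group
  apply (Th_canon X _).unique h
  rw [p_Th, map_mul, p_Th, p_Th, T_add]

lemma Th_zero : Th X 0 = 1 := by
  have h := Th_add X 0 0
  rw [add_zero] at h
  exact left_eq_mul.1 h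

lemma act_D_Th {c : ℝ} (hc : 0 < c) (a : ℝ) : X.act (D c) (Th X a) = Th X (c * a) := by
  apply ((Th_canon X a).act (D c)).unique (Th_canon X _)
  rw [X.p_act, p_Th, p_Th, D_T hc, mul_inv_cancel_right]

/-- canonical lift of the dilation by `c` -/
def Dh (c : ℝ) : E := X.act Lg⁻¹ (Th X (Real.log c))

lemma Dh_canon (c : ℝ) : X.Canon (Dh X c) := (Th_canon X _).act _

lemma p_Dh {c : ℝ} (hc : 0 < c) : X.p (Dh X c) = D c := by
  rw [Dh, X.p_act, p_Th, inv_inv, mul_assoc, ← Lg_D hc]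
  group

lemma Dh_mul {a b : ℝ} (ha : 0 < a) (hb : 0 < b) : Dh X (a * b) = Dh X a * Dh X b := by
  rw [Dh, Real.log_mul ha.ne' hb.ne', Th_add, X.map_act_mul]
  rfl

lemma Dh_one : Dh X 1 = 1 := by
  have h := Dh_mul X one_pos one_pos
  rw [mul_one] at h
  exact left_eq_mul.1 h

lemma Dh_Th {c : ℝ} (hc : 0 < c) (a : ℝ) : Dh X c * Th X a = Th X (c * a) * Dh X c := by
  have h := act_D_Th X hc a
  rw [X.act_p' (p_Dh X hc)] at h
  rw [← h]
  group

lemma act_D_Dh {c d : ℝ} (hc : 0 < c) (hd : 0 < d) : X.act (D c) (Dh X d) = Dh X d := by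
  apply X.act_comm
  rw [p_Dh X hd, ← D_mul hc hd, ← D_mul hd hc, mul_comm]

/-! ### Canonical lifts of hyperbolic germs -/

lemma hasC_KD {k : HGroup} (hk : k ∈ KS) {c : ℝ} (hc : 0 < c) (hc1 : c < 1) :
    X.HasC (k * D c) := by
  obtain ⟨h, _, e⟩ := KS_koenigs hk hc hc1
  rw [e, ← p_Dh X hc]
  exact (Dh_canon X c).hasC.conj h

lemma cn_D {c : ℝ} (hc : 0 < c) : X.cn (D c) = Dh X c := (Dh_canon X c).cn_eq (p_Dh X hc)

/-- the section over `K` given by the multiplier `c` -/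
def S (c : ℝ) (k : HGroup) : E := X.cn (k * D c) * (Dh X c)⁻¹

lemma p_S {c : ℝ} (hc : 0 < c) (hc1 : c < 1) {k : HGroup} (hk : k ∈ KS) :
    X.p (S X c k) = k := by
  rw [S, map_mul, map_inv, (hasC_KD X hk hc hc1).p_cn, p_Dh X hc, mul_inv_cancel_right]

lemma S_one {c : ℝ} (hc : 0 < c) : S X c 1 = 1 := by
  rw [S, one_mul, cn_D X hc, mul_inv_cancel]

/-- equivariance under dilations -/
lemma S_conj_D {c : ℝ} (hc : 0 < c) (hc1 : c < 1) {k : HGroup} (hk : k ∈ KS) {d : ℝ}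
    (hd : 0 < d) : S X c (D d * k * (D d)⁻¹) = X.act (D d) (S X c k) := by
  have h1 : D d * k * (D d)⁻¹ * D c = D d * (k * D c) * (D d)⁻¹ := by
    have : (D d)⁻¹ * D c = D c * (D d)⁻¹ := by
      rw [D_inv hd, ← D_mul (inv_pos.2 hd) hc, ← D_mul hc (inv_pos.2 hd), mul_comm]
    rw [mul_assoc, this]
    group
  rw [S, h1, (hasC_KD X hk hc hc1).cn_conj, S, X.map_act_mul, X.map_act_inv, act_D_Dh X hd hc]

variable {X}

/-- The main hypothesis: the sections given by `l` and `l * l` coincide. -/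
def Coh (X : Ext HGroup E) (l : ℝ) : Prop := ∀ k ∈ KS, S X l k = S X (l * l) k

variable {l : ℝ} (hl0 : 0 < l) (hl1 : l < 1)

include hl0 hl1

lemma Coh.cn_mul (hX : Coh X l) {a k : HGroup} (ha : a * (D l)⁻¹ ∈ KS) (hk : k ∈ KS) :
    X.cn (k * a) * X.cn a = X.cn (k * (a * a)) := by
  have hl2 : l * l < 1 := by nlinarith
  have hl3 : 0 < l * l := by positivity
  obtain ⟨g, hg, e⟩ := KS_koenigs ha hl0 hl1
  rw [inv_mul_cancel_right] at e
  subst e
  obtain ⟨m, hm, rfl⟩ : ∃ m ∈ KS, k = g * m * g⁻¹ :=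
    ⟨g⁻¹ * k * g, KS_mul (KS_mul (KS_inv hg) hk) hg, by group⟩
  have e1 : g * m * g⁻¹ * (g * D l * g⁻¹) = g * (m * D l) * g⁻¹ := by group
  have e2 : g * m * g⁻¹ * (g * D l * g⁻¹ * (g * D l * g⁻¹)) = g * (m * D (l * l)) * g⁻¹ := by
    rw [D_mul hl0 hl0]
    group
  have hD : X.HasC (D l) := by rw [← p_Dh X hl0]; exact (Dh_canon X l).hasC
  rw [e1, e2, (hasC_KD X hm hl0 hl1).cn_conj, (hasC_KD X hm hl3 hl2).cn_conj, hD.cn_conj,
    ← X.map_act_mul, cn_D X hl0]
  congr 1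
  have h := hX m hm
  rw [S, S, Dh_mul X hl0 hl0] at h
  have h2 : X.cn (m * D (l * l)) = X.cn (m * D (l * l)) * (Dh X l * Dh X l)⁻¹ *
      (Dh X l * Dh X l) := by group
  rw [h2, ← h]
  group

/-- The section is multiplicative. -/
theorem Coh.S_mul (hX : Coh X l) {k m : HGroup} (hk : k ∈ KS) (hm : m ∈ KS) :
    S X l (k * m) = S X l k * S X l m := by
  have hl2 : l * l < 1 := by nlinarith
  have hl3 : 0 < l * l := by positivity
  set n := (D l)⁻¹ * m * D l with hn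
  have hnK : n ∈ KS := KS_conj_D' hm hl0
  have hmn : m = D l * n * (D l)⁻¹ := by rw [hn]; group
  -- `cn (k D) * cn (n D) = cn (k D n D)`
  have ha : n * D l * (D l)⁻¹ ∈ KS := by rwa [mul_inv_cancel_right]
  have hkn : k * n⁻¹ ∈ KS := KS_mul hk (KS_inv hnK)
  have h1 := hX.cn_mul hl0 hl1 ha hkn
  have e1 : k * n⁻¹ * (n * D l) = k * D l := by group
  have e2 : k * n⁻¹ * (n * D l * (n * D l)) = k * m * D (l * l) := by
    rw [D_mul hl0 hl0, hmn]
    group
  rw [e1, e2] at h1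
  have h2 := hX (k * m) (KS_mul hk hm)
  have h3 : X.cn (k * m * D (l * l)) = S X (l * l) (k * m) * (Dh X l * Dh X l) := by
    rw [S, Dh_mul X hl0 hl0]
    group
  rw [h3, ← h2] at h1
  have h4 : S X l m = Dh X l * S X l n * (Dh X l)⁻¹ := by
    rw [hmn, S_conj_D X hl0 hl1 hnK hl0, X.act_p' (p_Dh X hl0)]
  rw [h4]
  have h5 : X.cn (k * D l) = S X l k * Dh X l := by rw [S]; group
  have h6 : X.cn (n * D l) = S X l n * Dh X l := by rw [S]; group
  rw [h5, h6] at h1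
  calc S X l (k * m) = S X l (k * m) * (Dh X l * Dh X l) * (Dh X l * Dh X l)⁻¹ := by group
    _ = S X l k * Dh X l * (S X l n * Dh X l) * (Dh X l * Dh X l)⁻¹ := by rw [h1]
    _ = _ := by group

lemma Coh.S_inv (hX : Coh X l) {k : HGroup} (hk : k ∈ KS) :
    S X l k⁻¹ = (S X l k)⁻¹ := by
  have h := hX.S_mul hl0 hl1 (KS_inv hk) hk
  rw [inv_mul_cancel, S_one X hl0] at h
  exact eq_inv_of_mul_eq_one_left h.symm

end MP70cc9d
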