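import Pool.Agent.Lib.MP_70cc9d.Flat

/-!
# Generators of the second homology of the Haefliger group
-/

open Set Filter Topology
open scoped commutatorElement

noncomputable section

namespace MP70cc9d

/-- the dilation by `c`, as a local diffeomorphism defined on `(-1, 1)` -/
def dil (c : ℝ) (hc : 0 < c) : LD :=
  mk' (fun x => c * x) (-1) 1 (by norm_num) fun x _ => gd_mul hc x

lemma cls_dil {c : ℝ} (hc : 0 < c) : cls (dil c hc) = D c :=
  (cl_eq (dil c hc) (x := 0) ⟨by simp [dil, mk'], by simp [dil, mk']⟩ EventuallyEq.rfl).symm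

/-- If the extension `F ⧸ B` of `G` splits, where `B` contains `[ker π, F]`, then
`ker π ∩ [F, F]` is contained in `B`. -/
lemma le_of_section {G F : Type*} [Group G] [Group F] (π : F →* G) (B : Subgroup F)
    (hc : ∀ z ∈ π.ker, ∀ x, ⁅z, x⁆ ∈ B) (φ : G → F)
    (hφ : ∀ g, π (φ g) = g) (hm : ∀ g h, (φ (g * h))⁻¹ * (φ g * φ h) ∈ B) [B.Normal] :
    π.ker ⊓ commutator F ≤ B := by
  let mk : F →* F ⧸ B := QuotientGroup.mk' B
  have hmk : ∀ x, mk x = 1 ↔ x ∈ B := fun x => QuotientGroup.eq_one_iff x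
  let θ : F →* F ⧸ B := MonoidHom.mk' (fun x => mk (φ (π x))) (by
    intro a b
    have h := (hmk _).2 (hm (π a) (π b))
    rw [map_mul, map_inv, inv_mul_eq_one, map_mul] at h
    rw [map_mul, h])
  have hcent : ∀ z ∈ π.ker, ∀ x, mk z * mk x = mk x * mk z := by
    intro z hz x
    have h := (hmk _).2 (hc z hz x)
    rwa [map_commutatorElement, commutatorElement_eq_one_iff_mul_comm] at h
  have key : commutator F ≤ mk.eqLocus θ := by
    rw [commutator_def, Subgroup.commutator_le]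
    intro a _ b _
    show mk ⁅a, b⁆ = θ ⁅a, b⁆
    -- `a = φ (π a) * z`
    have dec : ∀ x : F, ∃ z ∈ π.ker, mk x = θ x * mk z := by
      intro x
      refine ⟨(φ (π x))⁻¹ * x, ?_, ?_⟩
      · rw [MonoidHom.mem_ker, map_mul, map_inv, hφ, inv_mul_cancel]
      · show mk x = mk (φ (π x)) * mk ((φ (π x))⁻¹ * x)
        rw [← map_mul]
        congr 1
        group
    obtain ⟨z, hz, ea⟩ := dec a
    obtain ⟨w, hw, eb⟩ := dec b
    have hz' : ∀ q : F ⧸ B, mk z * q = q * mk z := by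
      intro q
      obtain ⟨x, rfl⟩ := QuotientGroup.mk'_surjective B q
      exact hcent z hz x
    have hw' : ∀ q : F ⧸ B, mk w * q = q * mk w := by
      intro q
      obtain ⟨x, rfl⟩ := QuotientGroup.mk'_surjective B q
      exact hcent w hw x
    rw [map_commutatorElement, map_commutatorElement, ea, eb, commutatorElement_def,
      commutatorElement_def]
    have hz2 : ∀ q : F ⧸ B, (mk z)⁻¹ * q = q * (mk z)⁻¹ := by
      intro q
      rw [inv_mul_eq_iff_eq_mul, ← mul_assoc, hz', mul_inv_cancel_right]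
    have hw2 : ∀ q : F ⧸ B, (mk w)⁻¹ * q = q * (mk w)⁻¹ := by
      intro q
      rw [inv_mul_eq_iff_eq_mul, ← mul_assoc, hw', mul_inv_cancel_right]
    calc θ a * mk z * (θ b * mk w) * (θ a * mk z)⁻¹ * (θ b * mk w)⁻¹
        = θ a * (mk z * (θ b * mk w)) * ((mk z)⁻¹ * (θ a)⁻¹) * ((mk w)⁻¹ * (θ b)⁻¹) := by group
      _ = θ a * ((θ b * mk w) * mk z) * ((mk z)⁻¹ * (θ a)⁻¹) * ((mk w)⁻¹ * (θ b)⁻¹) := by
          rw [hz']
      _ = θ a * θ b * (mk w * ((θ a)⁻¹)) * ((mk w)⁻¹ * (θ b)⁻¹) := by group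
      _ = θ a * θ b * ((θ a)⁻¹ * mk w) * ((mk w)⁻¹ * (θ b)⁻¹) := by rw [hw']
      _ = θ a * θ b * (θ a)⁻¹ * (θ b)⁻¹ := by group
  intro x hx
  obtain ⟨h1, h2⟩ := hx
  have h3 : mk x = θ x := key h2
  have h4 : θ x = mk (φ (π x)) := rfl
  rw [MonoidHom.mem_ker.1 h1] at h4
  have h5 : mk (φ 1) = 1 := by
    have h := (hmk _).2 (hm 1 1)
    rw [map_mul, map_inv, inv_mul_eq_one, map_mul, mul_one] at h
    exact left_eq_mul.1 h
  rw [h5] at h4
  rw [← hmk, h3, h4]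

/-- From the relation for flat germs and the multiplier `l` to the relation for all germs tangent
to the identity and the multiplier `l ^ n`. -/
theorem coh_of_flat {E : Type*} [Group E] (X : Ext HGroup E) {n : ℕ} (hn : 1 ≤ n) {R ε l : ℝ}
    (hR : 0 < R) (hε : 0 < ε) (hl0 : 0 < l) (hl1 : l < 1)
    (hZ : ∀ a b c d : E, X.p a = D l → X.p c = D (l * l) → X.p b ∈ flat n R ε →
      X.p d ∈ flat n R ε → ⁅X.p a, X.p b⁆ = ⁅X.p c, X.p d⁆ → ⁅a, b⁆ = ⁅c, d⁆) :
    Coh X (l ^ n) := by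
  have hm0 : 0 < l ^ n := pow_pos hl0 n
  have hm1 : l ^ n < 1 := pow_lt_one₀ hl0.le hl1 (by omega)
  have hm2 : 0 < l ^ n * l ^ n := by positivity
  have hm3 : l ^ n * l ^ n < 1 := by nlinarith
  intro k hk
  obtain ⟨h, hh, e1⟩ := KS_koenigs hk hm0 hm1
  obtain ⟨g, hg, e2⟩ := KS_koenigs hk hm2 hm3
  obtain ⟨fh, hfh, rfl⟩ := hh
  obtain ⟨fg, hfg, rfl⟩ := hg
  obtain ⟨h', hh1, hh2⟩ := exists_flat hfh hn
  obtain ⟨g', hg1, hg2⟩ := exists_flat hfg hn
  obtain ⟨μ, hμ, hs1, hs2⟩ := exists_scale hn hh1 hg1 hR hε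
  -- lifts
  obtain ⟨P, hP⟩ := X.surj (Pw n * (D μ)⁻¹)
  obtain ⟨b, hb⟩ := X.surj (cl fh 0)
  obtain ⟨d, hd⟩ := X.surj (cl fg 0)
  have pa : ∀ c : ℝ, 0 < c → (Pw n * (D μ)⁻¹)⁻¹ * D (c ^ n) * (Pw n * (D μ)⁻¹) = D c := by
    intro c hc
    have h1 : D (c ^ n) * Pw n = Pw n * D c := (Pw_D hn hc).symm
    have h2 : D μ * D c = D c * D μ := by rw [← D_mul hμ hc, ← D_mul hc hμ, mul_comm]
    calc (Pw n * (D μ)⁻¹)⁻¹ * D (c ^ n) * (Pw n * (D μ)⁻¹)
        = D μ * (Pw n)⁻¹ * (D (c ^ n) * Pw n) * (D μ)⁻¹ := by group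
      _ = D μ * D c * (D μ)⁻¹ := by rw [h1]; group
      _ = D c := by rw [h2]; group
  have pb : ∀ u v : ℝ → ℝ, Pw n * cl v 0 = cl u 0 * Pw n →
      (Pw n * (D μ)⁻¹)⁻¹ * cl u 0 * (Pw n * (D μ)⁻¹) = D μ * cl v 0 * (D μ)⁻¹ := by
    intro u v huv
    calc (Pw n * (D μ)⁻¹)⁻¹ * cl u 0 * (Pw n * (D μ)⁻¹)
        = D μ * (Pw n)⁻¹ * (cl u 0 * Pw n) * (D μ)⁻¹ := by group
      _ = D μ * cl v 0 * (D μ)⁻¹ := by rw [← huv]; group
  have main := hZ (P⁻¹ * Dh X (l ^ n) * P) (P⁻¹ * b * P) (P⁻¹ * Dh X (l ^ n * l ^ n) * P)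
    (P⁻¹ * d * P) (by rw [map_mul, map_mul, map_inv, p_Dh X hm0, hP, pa l hl0])
    (by
      rw [map_mul, map_mul, map_inv, p_Dh X hm2, hP, ← mul_pow, pa _ (by positivity)])
    (by rw [map_mul, map_mul, map_inv, hb, hP, pb _ _ hh2]; exact hs1)
    (by rw [map_mul, map_mul, map_inv, hd, hP, pb _ _ hg2]; exact hs2)
    (by
      have e3 : ⁅cl fh 0, D (l ^ n)⁆ = ⁅cl fg 0, D (l ^ n * l ^ n)⁆ := by
        rw [commutatorElement_def, commutatorElement_def, ← e1, ← e2]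
        group
      have e4 : ⁅D (l ^ n), cl fh 0⁆ = ⁅D (l ^ n * l ^ n), cl fg 0⁆ := by
        rw [← commutatorElement_inv, e3, commutatorElement_inv]
      have e5 : ∀ x y : HGroup, ⁅(X.p P)⁻¹ * x * X.p P, (X.p P)⁻¹ * y * X.p P⁆ =
          (X.p P)⁻¹ * ⁅x, y⁆ * X.p P := by
        intro x y
        simp only [commutatorElement_def]
        group
      simp only [map_mul, map_inv, p_Dh X hm0, p_Dh X hm2, hb, hd]
      rw [e5, e5, e4])
  have e6 : ∀ x y : E, ⁅P⁻¹ * x * P, P⁻¹ * y * P⁆ = P⁻¹ * ⁅x, y⁆ * P := by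
    intro x y
    simp only [commutatorElement_def]
    group
  rw [e6, e6] at main
  have main2 : ⁅Dh X (l ^ n), b⁆ = ⁅Dh X (l ^ n * l ^ n), d⁆ :=
    mul_left_cancel (mul_right_cancel main)
  have main3 : ⁅b, Dh X (l ^ n)⁆ = ⁅d, Dh X (l ^ n * l ^ n)⁆ := by
    rw [← commutatorElement_inv, main2, commutatorElement_inv]
  have c1 : X.cn (k * D (l ^ n)) = b * Dh X (l ^ n) * b⁻¹ := by
    apply ((Dh_canon X _).conj b).cn_eq
    rw [map_mul, map_mul, map_inv, hb, p_Dh X hm0, e1]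
  have c2 : X.cn (k * D (l ^ n * l ^ n)) = d * Dh X (l ^ n * l ^ n) * d⁻¹ := by
    apply ((Dh_canon X _).conj d).cn_eq
    rw [map_mul, map_mul, map_inv, hd, p_Dh X hm2, e2]
  rw [S, S, c1, c2]
  exact main3

/-- **Main theorem.** For every surjection `π : F → Γ` onto the Haefliger group, for every order of
contact `n ≥ 1`, every `R, ε > 0` and every multiplier `0 < l < 1`, the group
`ker π ∩ [F, F]` is generated modulo `[ker π, F]` by the torus elements and by the genus two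
elements `⁅a, b⁆ ⁅c, d⁆⁻¹`, where `a`, `c` are lifts of the dilations by `l`, `l²` and `b`, `d`
are lifts of germs at `0` tangent to the identity to order `n`, defined on `(-R, R)` and
`ε`-close to the identity. -/
theorem main {F : Type*} [Group F] (π : F →* HGroup) (hπ : Function.Surjective π) {n : ℕ}
    (hn : 1 ≤ n) {R ε l : ℝ} (hR : 0 < R) (hε : 0 < ε) (hl0 : 0 < l) (hl1 : l < 1) :
    π.ker ⊓ commutator F = ⁅π.ker, (⊤ : Subgroup F)⁆ ⊔ Subgroup.closure
      ({x | ∃ a b, Commute (π a) (π b) ∧ x = ⁅a, b⁆} ∪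
       {x | ∃ a b c d, π a = cls (dil l hl0) ∧ π c = cls (dil (l * l) (mul_pos hl0 hl0)) ∧
          π b ∈ flat n R ε ∧ π d ∈ flat n R ε ∧ ⁅π a, π b⁆ = ⁅π c, π d⁆ ∧
          x = ⁅a, b⁆ * ⁅c, d⁆⁻¹}) := by
  rw [cls_dil hl0, cls_dil (mul_pos hl0 hl0)]
  set B : Subgroup F := ⁅π.ker, (⊤ : Subgroup F)⁆ ⊔ Subgroup.closure
      ({x | ∃ a b, Commute (π a) (π b) ∧ x = ⁅a, b⁆} ∪
       {x | ∃ a b c d, π a = D l ∧ π c = D (l * l) ∧
          π b ∈ flat n R ε ∧ π d ∈ flat n R ε ∧ ⁅π a, π b⁆ = ⁅π c, π d⁆ ∧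
          x = ⁅a, b⁆ * ⁅c, d⁆⁻¹}) with hB
  have hcomm : ∀ a b : F, ⁅a, b⁆ ∈ commutator F := fun a b => by
    rw [commutator_def]
    exact Subgroup.commutator_mem_commutator (Subgroup.mem_top _) (Subgroup.mem_top _)
  have hker : B ≤ π.ker := by
    rw [hB]
    refine sup_le (Subgroup.commutator_le_left _ _) ((Subgroup.closure_le _).2 ?_)
    rintro x (⟨a, b, h, rfl⟩ | ⟨a, b, c, d, -, -, -, -, h, rfl⟩)
    · rw [SetLike.mem_coe, MonoidHom.mem_ker, map_commutatorElement]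
      exact commutatorElement_eq_one_iff_commute.2 h
    · rw [SetLike.mem_coe, MonoidHom.mem_ker, map_mul, map_inv, map_commutatorElement,
        map_commutatorElement, h, mul_inv_cancel]
  have hle : B ≤ π.ker ⊓ commutator F := by
    refine le_inf hker ?_
    rw [hB]
    refine sup_le ?_ ((Subgroup.closure_le _).2 ?_)
    · rw [commutator_def]
      exact Subgroup.commutator_mono le_top le_top
    · rintro x (⟨a, b, h, rfl⟩ | ⟨a, b, c, d, -, -, -, -, h, rfl⟩)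
      · exact hcomm a b
      · exact mul_mem (hcomm a b) (inv_mem (hcomm c d))
  have hc : ∀ z ∈ π.ker, ∀ x, ⁅z, x⁆ ∈ B := fun z hz x => by
    rw [hB]
    exact Subgroup.mem_sup_left (Subgroup.commutator_mem_commutator hz (Subgroup.mem_top x))
  have hT : ∀ a b : F, Commute (π a) (π b) → ⁅a, b⁆ ∈ B := fun a b h => by
    rw [hB]
    exact Subgroup.mem_sup_right (Subgroup.subset_closure (Or.inl ⟨a, b, h, rfl⟩))
  have hZ : ∀ a b c d : F, π a = D l → π c = D (l * l) → π b ∈ flat n R ε →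
      π d ∈ flat n R ε → ⁅π a, π b⁆ = ⁅π c, π d⁆ → ⁅a, b⁆ * ⁅c, d⁆⁻¹ ∈ B := by
    intro a b c d h1 h2 h3 h4 h5
    rw [hB]
    exact Subgroup.mem_sup_right
      (Subgroup.subset_closure (Or.inr ⟨a, b, c, d, h1, h2, h3, h4, h5, rfl⟩))
  have hBn : B.Normal := by
    constructor
    intro x hx g
    have h1 : ⁅x⁻¹, g⁆ ∈ B := hc x⁻¹ (inv_mem (hker hx)) g
    have h2 : g * x * g⁻¹ = x * ⁅x⁻¹, g⁆ := by
      rw [commutatorElement_def]; group
    rw [h2]
    exact mul_mem hx h1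
  clear_value B
  apply le_antisymm _ hle
  -- the extension
  let mk : F →* F ⧸ B := QuotientGroup.mk' B
  have hmk : ∀ x, mk x = 1 ↔ x ∈ B := fun x => QuotientGroup.eq_one_iff x
  have hmks : Function.Surjective mk := QuotientGroup.mk'_surjective B
  let p : F ⧸ B →* HGroup := QuotientGroup.lift B π fun x hx => hker hx
  have hp : ∀ x, p (mk x) = π x := fun x => rfl
  let X : Ext HGroup (F ⧸ B) :=
    { p := p
      surj := fun g => by
        obtain ⟨x, rfl⟩ := hπ g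
        exact ⟨mk x, rfl⟩
      central := by
        intro z hz e
        obtain ⟨z, rfl⟩ := hmks z
        obtain ⟨e, rfl⟩ := hmks e
        have h := (hmk _).2 (hc z hz e)
        rwa [map_commutatorElement, commutatorElement_eq_one_iff_mul_comm] at h
      comm := by
        intro a b hab
        obtain ⟨a, rfl⟩ := hmks a
        obtain ⟨b, rfl⟩ := hmks b
        have h := (hmk _).2 (hT a b hab)
        rwa [map_commutatorElement, commutatorElement_eq_one_iff_mul_comm] at h }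
  have hX : Coh X (l ^ n) := by
    apply coh_of_flat X hn hR hε hl0 hl1
    intro a b c d h1 h2 h3 h4 h5
    obtain ⟨a, rfl⟩ := hmks a
    obtain ⟨b, rfl⟩ := hmks b
    obtain ⟨c, rfl⟩ := hmks c
    obtain ⟨d, rfl⟩ := hmks d
    have h := (hmk _).2 (hZ a b c d h1 h2 h3 h4 h5)
    rwa [map_mul, map_inv, mul_inv_eq_one, map_commutatorElement, map_commutatorElement] at h
  obtain ⟨φ, hφ⟩ := hX.exists_section (pow_pos hl0 n) (pow_lt_one₀ hl0.le hl1 (by omega))
  have hsec : ∀ g, ∃ x, mk x = φ g := fun g => hmks _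
  choose σ hσ using hsec
  refine le_of_section π B hc σ ?_ ?_
  · intro g
    rw [← hp, hσ]
    exact hφ g
  · intro g h
    rw [← hmk, map_mul, map_inv, map_mul, hσ, hσ, hσ, map_mul, inv_mul_cancel]

end MP70cc9d
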