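import Pool.Agent.Lib.MP_70cc9d.Lift

/-!
# The section over the Haefliger group
-/

open Set Filter Topology

noncomputable section

namespace MP70cc9d

variable {E : Type*} [Group E] (X : Ext HGroup E) (l : ℝ)

/-- the section over the germs at `0` which fix `0` -/
def s0 (f : ℝ → ℝ) : E := S X l (cl f 0 * (D (deriv f 0))⁻¹) * Dh X (deriv f 0)

/-- the section over all germs -/
def sc (f : ℝ → ℝ) (x : ℝ) : E :=
  Th X (f x) * s0 X l (fun y => f (y + x) - f x) * (Th X x)⁻¹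

variable {X l}

lemma s0_eq {f : ℝ → ℝ} {c : ℝ} (hf : Gm f c) :
    s0 X l f = S X l (cl f 0 * (D c)⁻¹) * Dh X c := by
  rw [s0, hf.2.2.deriv]

lemma s0_congr {f g : ℝ → ℝ} {c : ℝ} (hf : Gm f c) (hc : 0 < c) (e : f =ᶠ[𝓝 0] g) :
    s0 X l f = s0 X l g := by
  rw [s0, s0, e.deriv_eq, cl_congr (hf.gd hc) e]

section

variable (hl0 : 0 < l) (hl1 : l < 1)

include hl0

lemma s0_mul (c : ℝ) (_ : 0 < c) : s0 X l (fun y => c * y) = Dh X c := by
  rw [s0_eq (gm_mul c)]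
  have : cl (fun y => c * y) 0 * (D c)⁻¹ = 1 := mul_inv_cancel (D c)
  rw [this, S_one X hl0, one_mul]

include hl1

lemma p_s0 {f : ℝ → ℝ} {c : ℝ} (hf : Gm f c) (hc : 0 < c) : X.p (s0 X l f) = cl f 0 := by
  rw [s0_eq hf, map_mul, p_S X hl0 hl1 (hf.mul_D_inv hc), p_Dh X hc, inv_mul_cancel_right]

lemma s0_comp (hX : Coh X l) {f g : ℝ → ℝ} {c d : ℝ} (hg : Gm g d) (hf : Gm f c) (hc : 0 < c)
    (hd : 0 < d) : s0 X l (g ∘ f) = s0 X l g * s0 X l f := by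
  rw [s0_eq (hg.comp hf), s0_eq hg, s0_eq hf, cl_comp_gm hg hf hc hd, Dh_mul X hd hc, D_mul hd hc]
  have e : cl g 0 * cl f 0 * (D d * D c)⁻¹ =
      cl g 0 * (D d)⁻¹ * (D d * (cl f 0 * (D c)⁻¹) * (D d)⁻¹) := by group
  rw [e, hX.S_mul hl0 hl1 (hg.mul_D_inv hd) (KS_conj_D (hf.mul_D_inv hc) hd),
    S_conj_D X hl0 hl1 (hf.mul_D_inv hc) hd, X.act_p' (p_Dh X hd)]
  group

lemma s0_canon (hX : Coh X l) {f : ℝ → ℝ} {c : ℝ} (hf : Gm f c) (hc : 0 < c) (hc1 : c < 1) :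
    X.Canon (s0 X l f) := by
  obtain ⟨h, hh, e⟩ := hf.koenigs hc hc1
  have e1 : cl f 0 * (D c)⁻¹ = h * (D c * h⁻¹ * (D c)⁻¹) := by rw [e]; group
  rw [s0_eq hf, e1, hX.S_mul hl0 hl1 hh (KS_conj_D (KS_inv hh) hc),
    S_conj_D X hl0 hl1 (KS_inv hh) hc, hX.S_inv hl0 hl1 hh, X.act_p' (p_Dh X hc)]
  have e2 : S X l h * (Dh X c * (S X l h)⁻¹ * (Dh X c)⁻¹) * Dh X c =
      S X l h * Dh X c * (S X l h)⁻¹ := by group
  rw [e2]
  exact (Dh_canon X c).conj _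

end

/-! ### The section over all germs -/

lemma gm_of_gd {f : ℝ → ℝ} {x : ℝ} (hf : Gd f x) :
    Gm (fun y => f (y + x) - f x) (deriv f x) := by
  refine ⟨?_, by simp, ?_⟩
  · have h : AnalyticAt ℝ f ((0 : ℝ) + x) := by rw [zero_add]; exact hf.1
    exact (AnalyticAt.comp (f := fun y : ℝ => y + x) h
      (analyticAt_id.add analyticAt_const)).sub analyticAt_const
  · have h : HasDerivAt f (deriv f x) (0 + x) := by
      rw [zero_add]; exact hf.1.differentiableAt.hasDerivAt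
    simpa using (h.comp_add_const 0 x).sub_const (f x)

lemma sc_congr {f g : ℝ → ℝ} {x : ℝ} (hf : Gd f x) (e : f =ᶠ[𝓝 x] g) :
    sc X l f x = sc X l g x := by
  have e0 : f x = g x := e.self_of_nhds
  have hx : Tendsto (fun y : ℝ => y + x) (𝓝 0) (𝓝 x) := by
    have : Continuous fun y : ℝ => y + x := by fun_prop
    simpa using this.tendsto 0
  have e1 : (fun y => f (y + x) - f x) =ᶠ[𝓝 0] fun y => g (y + x) - g x := by
    filter_upwards [hx.eventually e] with y hy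
    rw [hy, e0]
  rw [sc, sc, s0_congr (gm_of_gd hf) hf.2 e1, e0]

lemma cl_shift {f : ℝ → ℝ} {x : ℝ} (hf : Gd f x) :
    cl f x = T (f x) * cl (fun y => f (y + x) - f x) 0 * (T x)⁻¹ := by
  have hg := gm_of_gd hf
  have hgg : Gd (fun y => f (y + x) - f x) 0 := hg.gd hf.2
  have h1 := cl_comp hgg (gd_add (f x) _)
  have hf' : Gd f ((fun y : ℝ => y + x) 0) := by simpa using hf
  have h2 := cl_comp (gd_add x 0) hf'
  rw [cl_add] at h1 h2
  have e : (fun y => y + f x) ∘ (fun y => f (y + x) - f x) = f ∘ fun y => y + x := by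
    funext y
    simp
  rw [e, h2] at h1
  rw [zero_add] at h1
  rw [← h1]
  group

section

variable (hl0 : 0 < l) (hl1 : l < 1)

include hl0

lemma sc_mul {c : ℝ} (hc : 0 < c) (x : ℝ) : sc X l (fun y => c * y) x = Dh X c := by
  have e : (fun y => c * (y + x) - c * x) = fun y => c * y := by funext y; ring
  rw [sc]
  simp only [e]
  rw [s0_mul hl0 c hc, ← Dh_Th X hc]
  group

lemma sc_add (a x : ℝ) : sc X l (fun y => y + a) x = Th X a := by
  have e : (fun y => y + x + a - (x + a)) = fun y : ℝ => 1 * y := by funext y; ring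
  rw [sc]
  simp only [e]
  rw [s0_mul hl0 1 one_pos, Dh_one, mul_one, add_comm x a, Th_add]
  group

include hl1

lemma p_sc {f : ℝ → ℝ} {x : ℝ} (hf : Gd f x) : X.p (sc X l f x) = cl f x := by
  rw [cl_shift hf, sc, map_mul, map_mul, map_inv, p_Th, p_Th, p_s0 hl0 hl1 (gm_of_gd hf) hf.2]

lemma sc_comp (hX : Coh X l) {f g : ℝ → ℝ} {x : ℝ} (hf : Gd f x) (hg : Gd g (f x)) :
    sc X l (g ∘ f) x = sc X l g (f x) * sc X l f x := by
  have e : (fun y => (g ∘ f) (y + x) - (g ∘ f) x) =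
      (fun y => g (y + f x) - g (f x)) ∘ (fun y => f (y + x) - f x) := by
    funext y
    simp
  rw [sc, e, s0_comp hl0 hl1 hX (gm_of_gd hg) (gm_of_gd hf) hf.2 hg.2, sc, sc]
  have e' : (g ∘ f) x = g (f x) := rfl
  rw [e']
  group

/-- The two-end argument, hyperbolic case. -/
lemma sc_hyp (hX : Coh X l) {f : ℝ → ℝ} (h : ∀ z ∈ Icc (0 : ℝ) 1, Gd f z) (h0 : f 0 = 0)
    (h1 : f 1 = 1) (hd0 : deriv f 0 < 1) (hd1 : deriv f 1 < 1) : sc X l f 0 = sc X l f 1 := by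
  have g0 := h 0 ⟨le_rfl, zero_le_one⟩
  have g1 := h 1 ⟨zero_le_one, le_rfl⟩
  have c0 : X.Canon (sc X l f 0) := by
    have := (s0_canon hl0 hl1 hX (gm_of_gd g0) g0.2 hd0).conj (Th X 0)
    rw [sc, h0]
    rwa [h0] at this
  have c1 : X.Canon (sc X l f 1) := by
    have := (s0_canon hl0 hl1 hX (gm_of_gd g1) g1.2 hd1).conj (Th X 1)
    rw [sc, h1]
    rwa [h1] at this
  apply c0.unique c1
  rw [p_sc hl0 hl1 g0, p_sc hl0 hl1 g1]
  exact cl_const zero_le_one h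

end

/-! ### An auxiliary diffeomorphism of `[0,1]` with multiplier `1/2` at both ends -/

/-- `x + x (1 - x) (x - 1/2)` -/
def q (x : ℝ) : ℝ := x + x * (1 - x) * (x - 1 / 2)

lemma q_zero : q 0 = 0 := by simp [q]

lemma q_one : q 1 = 1 := by simp [q]

lemma hasDerivAt_q (x : ℝ) : HasDerivAt q (1 / 2 + 3 * x * (1 - x)) x := by
  have h1 : HasDerivAt (fun x : ℝ => x) 1 x := hasDerivAt_id x
  have h := h1.add ((h1.mul ((hasDerivAt_const x (1 : ℝ)).sub h1)).mul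
    (h1.sub (hasDerivAt_const x (1 / 2 : ℝ))))
  exact h.congr_deriv (by simp only [Pi.sub_apply, Pi.mul_apply]; ring)

lemma analyticAt_q (x : ℝ) : AnalyticAt ℝ q x := by
  have h1 : AnalyticAt ℝ (fun x : ℝ => x) x := analyticAt_id
  exact h1.add ((h1.mul (analyticAt_const.sub h1)).mul (h1.sub analyticAt_const))

lemma gd_q {x : ℝ} (hx : x ∈ Icc (0 : ℝ) 1) : Gd q x := by
  refine ⟨analyticAt_q x, ?_⟩
  rw [(hasDerivAt_q x).deriv]
  nlinarith [hx.1, hx.2, mul_nonneg hx.1 (sub_nonneg.2 hx.2)]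

lemma q_mem {x : ℝ} (hx : x ∈ Icc (0 : ℝ) 1) : q x ∈ Icc (0 : ℝ) 1 := by
  have h1 : 0 ≤ x * (1 - x) := mul_nonneg hx.1 (by linarith [hx.2])
  constructor
  · have : q x = x * (1 - (1 - x) * (1 / 2 - x)) := by rw [q]; ring
    rw [this]
    apply mul_nonneg hx.1
    nlinarith [hx.1, hx.2]
  · have : 1 - q x = (1 - x) * (1 - x * (x - 1 / 2)) := by rw [q]; ring
    have h2 : 0 ≤ 1 - q x := by
      rw [this]
      apply mul_nonneg (by linarith [hx.2])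
      nlinarith [hx.1, hx.2]
    linarith

lemma iter_q_zero (n : ℕ) : q^[n] 0 = 0 := Function.iterate_fixed q_zero n

lemma iter_q_one (n : ℕ) : q^[n] 1 = 1 := Function.iterate_fixed q_one n

lemma iter_q_mem (n : ℕ) {x : ℝ} (hx : x ∈ Icc (0 : ℝ) 1) : q^[n] x ∈ Icc (0 : ℝ) 1 := by
  induction n with
  | zero => exact hx
  | succ n ih => rw [Function.iterate_succ_apply']; exact q_mem ih

lemma gd_iter_q (n : ℕ) {x : ℝ} (hx : x ∈ Icc (0 : ℝ) 1) : Gd (q^[n]) x := by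
  induction n with
  | zero => simpa using gd_id x
  | succ n ih =>
    rw [Function.iterate_succ']
    exact (gd_q (iter_q_mem n hx)).comp ih

lemma deriv_iter_q_zero (n : ℕ) : HasDerivAt (q^[n]) ((1 / 2) ^ n) 0 := by
  induction n with
  | zero => simpa using hasDerivAt_id (0 : ℝ)
  | succ n ih =>
    rw [Function.iterate_succ', pow_succ']
    have h := hasDerivAt_q 0
    rw [show (1 / 2 + 3 * 0 * (1 - 0) : ℝ) = 1 / 2 by norm_num] at h
    exact HasDerivAt.comp 0 (by rw [iter_q_zero]; exact h) ih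

lemma deriv_iter_q_one (n : ℕ) : HasDerivAt (q^[n]) ((1 / 2) ^ n) 1 := by
  induction n with
  | zero => simpa using hasDerivAt_id (1 : ℝ)
  | succ n ih =>
    rw [Function.iterate_succ', pow_succ']
    have h := hasDerivAt_q 1
    rw [show (1 / 2 + 3 * 1 * (1 - 1) : ℝ) = 1 / 2 by norm_num] at h
    exact HasDerivAt.comp 1 (by rw [iter_q_one]; exact h) ih

section

variable (hl0 : 0 < l) (hl1 : l < 1)

include hl0 hl1

/-- The two-end argument for diffeomorphisms of `[0,1]`. -/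
lemma sc_unit (hX : Coh X l) {f : ℝ → ℝ} (h : ∀ z ∈ Icc (0 : ℝ) 1, Gd f z) (h0 : f 0 = 0)
    (h1 : f 1 = 1) : sc X l f 0 = sc X l f 1 := by
  obtain ⟨n, hn⟩ : ∃ n : ℕ, max (deriv f 0) (deriv f 1) * (1 / 2 : ℝ) ^ n < 1 ∧
      (1 / 2 : ℝ) ^ n < 1 := by
    have ht : Tendsto (fun n : ℕ => max (deriv f 0) (deriv f 1) * (1 / 2 : ℝ) ^ n) atTop
        (𝓝 (max (deriv f 0) (deriv f 1) * 0)) :=
      (tendsto_pow_atTop_nhds_zero_of_lt_one (by norm_num) (by norm_num)).const_mul _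
    have ht2 : Tendsto (fun n : ℕ => (1 / 2 : ℝ) ^ n) atTop (𝓝 0) :=
      tendsto_pow_atTop_nhds_zero_of_lt_one (by norm_num) (by norm_num)
    rw [mul_zero] at ht
    exact ((ht.eventually (gt_mem_nhds one_pos)).and
      (ht2.eventually (gt_mem_nhds one_pos))).exists
  have i0 : (0 : ℝ) ∈ Icc (0 : ℝ) 1 := ⟨le_rfl, zero_le_one⟩
  have i1 : (1 : ℝ) ∈ Icc (0 : ℝ) 1 := ⟨zero_le_one, le_rfl⟩
  have g0 := h 0 i0
  have g1 := h 1 i1
  have hpow : (0 : ℝ) < (1 / 2) ^ n := by positivity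
  -- the iterate of `q`
  have e1 : sc X l (q^[n]) 0 = sc X l (q^[n]) 1 := by
    apply sc_hyp hl0 hl1 hX (fun z hz => gd_iter_q n hz) (iter_q_zero n) (iter_q_one n)
    · rw [(deriv_iter_q_zero n).deriv]; exact hn.2
    · rw [(deriv_iter_q_one n).deriv]; exact hn.2
  -- the composition
  have e2 : sc X l (f ∘ q^[n]) 0 = sc X l (f ∘ q^[n]) 1 := by
    apply sc_hyp hl0 hl1 hX (fun z hz => (h _ (iter_q_mem n hz)).comp (gd_iter_q n hz))
    · simp [iter_q_zero, h0]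
    · simp [iter_q_one, h1]
    · have : HasDerivAt (f ∘ q^[n]) (deriv f 0 * (1 / 2) ^ n) 0 :=
        HasDerivAt.comp 0 (by rw [iter_q_zero]; exact g0.1.differentiableAt.hasDerivAt)
          (deriv_iter_q_zero n)
      rw [this.deriv]
      exact lt_of_le_of_lt (mul_le_mul_of_nonneg_right (le_max_left _ _) hpow.le) hn.1
    · have : HasDerivAt (f ∘ q^[n]) (deriv f 1 * (1 / 2) ^ n) 1 :=
        HasDerivAt.comp 1 (by rw [iter_q_one]; exact g1.1.differentiableAt.hasDerivAt)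
          (deriv_iter_q_one n)
      rw [this.deriv]
      exact lt_of_le_of_lt (mul_le_mul_of_nonneg_right (le_max_right _ _) hpow.le) hn.1
  have f0 : Gd f (q^[n] 0) := by rw [iter_q_zero]; exact g0
  have f1 : Gd f (q^[n] 1) := by rw [iter_q_one]; exact g1
  rw [sc_comp hl0 hl1 hX (gd_iter_q n i0) f0, sc_comp hl0 hl1 hX (gd_iter_q n i1) f1, e1,
    iter_q_zero, iter_q_one] at e2
  exact mul_right_cancel e2

/-- The section does not depend on the point under analytic continuation. -/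
theorem sc_const (hX : Coh X l) {f : ℝ → ℝ} {x y : ℝ} (hxy : x ≤ y)
    (h : ∀ z ∈ Icc x y, Gd f z) : sc X l f x = sc X l f y := by
  rcases hxy.eq_or_lt with rfl | hxy
  · rfl
  -- `f x < f y`
  have hmono : StrictMonoOn f (Icc x y) := by
    apply strictMonoOn_of_deriv_pos (convex_Icc x y)
    · exact fun z hz => (h z hz).1.continuousAt.continuousWithinAt
    · intro z hz
      rw [interior_Icc] at hz
      exact (h z (Ioo_subset_Icc_self hz)).2
  have hf : f x < f y := hmono ⟨le_rfl, hxy.le⟩ ⟨hxy.le, le_rfl⟩ hxy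
  have ha : 0 < y - x := sub_pos.2 hxy
  have hb : 0 < (f y - f x)⁻¹ := inv_pos.2 (sub_pos.2 hf)
  -- affine maps
  let A1 : ℝ → ℝ := fun t => (y - x) * t
  let A2 : ℝ → ℝ := fun t => t + x
  let B1 : ℝ → ℝ := fun t => t + -f x
  let B2 : ℝ → ℝ := fun t => (f y - f x)⁻¹ * t
  have hA : ∀ t ∈ Icc (0 : ℝ) 1, A2 (A1 t) ∈ Icc x y := by
    intro t ht
    refine ⟨?_, ?_⟩
    · simp only [A1, A2]; nlinarith [ht.1]
    · simp only [A1, A2]; nlinarith [ht.2]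
  have G1 : ∀ z ∈ Icc (0 : ℝ) 1, Gd A1 z := fun z _ => gd_mul ha z
  have G2 : ∀ z ∈ Icc (0 : ℝ) 1, Gd (A2 ∘ A1) z := fun z hz =>
    Gd.comp (g := A2) (f := A1) (gd_add _ _) (G1 z hz)
  have G3 : ∀ z ∈ Icc (0 : ℝ) 1, Gd (f ∘ (A2 ∘ A1)) z := fun z hz =>
    Gd.comp (g := f) (f := A2 ∘ A1) (h _ (hA z hz)) (G2 z hz)
  have G4 : ∀ z ∈ Icc (0 : ℝ) 1, Gd (B1 ∘ (f ∘ (A2 ∘ A1))) z := fun z hz =>
    Gd.comp (g := B1) (f := f ∘ (A2 ∘ A1)) (gd_add _ _) (G3 z hz)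
  have gF : ∀ z ∈ Icc (0 : ℝ) 1, Gd (B2 ∘ (B1 ∘ (f ∘ (A2 ∘ A1)))) z := fun z hz =>
    Gd.comp (g := B2) (f := B1 ∘ (f ∘ (A2 ∘ A1))) (gd_mul hb _) (G4 z hz)
  have hx0 : A2 (A1 0) = x := by simp [A1, A2]
  have hy1 : A2 (A1 1) = y := by simp [A1, A2]
  have main := sc_unit hl0 hl1 hX gF
    (by simp only [Function.comp, hx0]; simp [B1, B2])
    (by
      simp only [Function.comp, hy1, B1, B2]
      rw [← sub_eq_add_neg, inv_mul_cancel₀ (sub_pos.2 hf).ne'])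
  have i0 : (0 : ℝ) ∈ Icc (0 : ℝ) 1 := ⟨le_rfl, zero_le_one⟩
  have i1 : (1 : ℝ) ∈ Icc (0 : ℝ) 1 := ⟨zero_le_one, le_rfl⟩
  have expand : ∀ z ∈ Icc (0 : ℝ) 1, sc X l (B2 ∘ (B1 ∘ (f ∘ (A2 ∘ A1)))) z =
      Dh X (f y - f x)⁻¹ * (Th X (-f x) * (sc X l f (A2 (A1 z)) * (Th X x * Dh X (y - x)))) := by
    intro z hz
    rw [sc_comp (f := B1 ∘ (f ∘ (A2 ∘ A1))) (g := B2) hl0 hl1 hX (G4 z hz) (gd_mul hb _),
      sc_comp (f := f ∘ (A2 ∘ A1)) (g := B1) hl0 hl1 hX (G3 z hz) (gd_add _ _),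
      sc_comp (f := A2 ∘ A1) (g := f) hl0 hl1 hX (G2 z hz) (h _ (hA z hz)),
      sc_comp (f := A1) (g := A2) hl0 hl1 hX (G1 z hz) (gd_add _ _)]
    rw [sc_mul hl0 hb, sc_add hl0, sc_mul hl0 ha, sc_add hl0]
    rfl
  rw [expand 0 i0, expand 1 i1, hx0, hy1] at main
  exact mul_right_cancel (mul_left_cancel (mul_left_cancel main))

/-- The section over the Haefliger group. -/
theorem Coh.exists_section (hX : Coh X l) : ∃ φ : HGroup →* E, ∀ g, X.p (φ g) = g := by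
  obtain ⟨φ, hφ⟩ := exists_hom (fun f x => sc X l f x) (fun f g x hf e => sc_congr hf e)
    (fun f g x hf hg => sc_comp hl0 hl1 hX hf hg) (fun f x y hxy h => sc_const hl0 hl1 hX hxy h)
  refine ⟨φ, fun g => ?_⟩
  have : X.p.comp φ = MonoidHom.id HGroup := by
    apply hom_ext
    intro f x hf
    simp only [MonoidHom.comp_apply, hφ f x hf, p_sc hl0 hl1 hf, MonoidHom.id_apply]
  exact DFunLike.congr_fun this g

end

end MP70cc9d
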